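import Pool.Agent.J6H40.WG2.Stm
import Pool.Agent.TH882.FL

/-!
Counting rough elements in an arithmetic progression, with a relative error and a polynomial absolute error
(module WG2-CNT, helper22).  The large primes are treated by the fundamental lemma, the bounded primes are
then added one at a time (the induction step is the one of the module WG-CNT).
-/

set_option autoImplicit false

open Finset

namespace Pool.Agent.J6H40.WG2

/-- numbers of an interval in a residue class -/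
lemma cnt_class (u w N x : ℕ) (hN : 0 < N) (huw : u ≤ w) :
    |(((Finset.Ico u w).filter (fun n => n ≡ x [MOD N])).card : ℝ) - ((w : ℝ) - u) / N| ≤ 1 := by
  have h := Nat.Ico_filter_modEq_card u w hN x
  have hNq : (0 : ℚ) < (N : ℚ) := by exact_mod_cast hN
  set A : ℚ := ((w : ℚ) - x) / (N : ℚ) with hA
  set B : ℚ := ((u : ℚ) - x) / (N : ℚ) with hB
  have hBA : B ≤ A := by
    rw [hA, hB]
    apply div_le_div_of_nonneg_right _ hNq.le
    have : (u : ℚ) ≤ w := by exact_mod_cast huw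
    linarith
  have h1 : (0 : ℤ) ≤ ⌈A⌉ - ⌈B⌉ := sub_nonneg.2 (Int.ceil_le_ceil hBA)
  rw [max_eq_left h1] at h
  have h2 : ((((Finset.Ico u w).filter (fun n => n ≡ x [MOD N])).card : ℤ) : ℚ) =
      (⌈A⌉ : ℚ) - (⌈B⌉ : ℚ) := by
    rw [h]
    push_cast
    ring
  have hAB : A - B = ((w : ℚ) - u) / N := by
    rw [hA, hB]
    ring
  have a1 := Int.le_ceil A
  have a2 := (Int.ceil_lt_add_one A).le
  have b1 := Int.le_ceil B
  have b2 := (Int.ceil_lt_add_one B).le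
  have h3 : |((((Finset.Ico u w).filter (fun n => n ≡ x [MOD N])).card : ℕ) : ℚ) -
      ((w : ℚ) - u) / N| ≤ 1 := by
    rw [← hAB, abs_le]
    rw [Int.cast_natCast] at h2
    constructor <;> linarith
  have h4 := (Rat.cast_le (K := ℝ)).2 h3
  push_cast at h4
  exact h4

/-- numbers of an interval with given residues modulo the primes of a finite set -/
lemma cnt_crt (u w : ℕ) (huw : u ≤ w) (T : Finset ℕ) (hT : ∀ p ∈ T, p.Prime) (c : ℕ → ℕ)
    (hc : ∀ p ∈ T, c p < p) :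
    |(((Finset.Ico u w).filter (fun n => ∀ p ∈ T, n % p = c p)).card : ℝ) -
      ((w : ℝ) - u) / ∏ p ∈ T, (p : ℝ)| ≤ 1 := by
  classical
  obtain ⟨x, hx⟩ := Nat.chineseRemainderOfFinset c (fun p => p) T (fun p hp => (hT p hp).ne_zero)
    (by
      intro p hp q hq hpq
      exact (Nat.coprime_primes (hT p hp) (hT q hq)).2 hpq)
  have hN : 0 < ∏ p ∈ T, p := Finset.prod_pos fun p hp => (hT p hp).pos
  have h1 : (Finset.Ico u w).filter (fun n => ∀ p ∈ T, n % p = c p) =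
      (Finset.Ico u w).filter (fun n => n ≡ x [MOD ∏ p ∈ T, p]) := by
    refine Finset.filter_congr fun n _ => ?_
    constructor
    · intro h
      rw [Nat.modEq_iff_dvd, Int.natCast_dvd]
      refine Finset.prod_primes_dvd _ (fun p hp => (hT p hp).prime) fun p hp => ?_
      rw [← Int.natCast_dvd, ← Nat.modEq_iff_dvd]
      have h2 : n ≡ c p [MOD p] := by
        rw [Nat.ModEq, Nat.mod_eq_of_lt (hc p hp)]
        exact h p hp
      exact h2.trans (hx p hp).symm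
    · intro h p hp
      have h2 : n ≡ x [MOD p] := h.of_dvd (Finset.dvd_prod_of_mem (fun p => p) hp)
      have h3 := h2.trans (hx p hp)
      rw [Nat.ModEq, Nat.mod_eq_of_lt (hc p hp)] at h3
      exact h3
  rw [h1]
  have h2 := cnt_class u w _ x hN huw
  rw [Nat.cast_prod] at h2
  exact h2

/-- the residue class of the `j` with `q ∣ a + j d` -/
noncomputable def rc (a d q : ℕ) : ℕ := (-(a : ZMod q) * (d : ZMod q)⁻¹).val

lemma rc_spec {a d q : ℕ} (hq : q.Prime) (hqd : ¬ q ∣ d) :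
    rc a d q < q ∧ ∀ j : ℕ, q ∣ a + j * d ↔ j % q = rc a d q := by
  have : Fact q.Prime := ⟨hq⟩
  have hd0 : (d : ZMod q) ≠ 0 := by
    rwa [Ne, ZMod.natCast_eq_zero_iff]
  have hj0q : rc a d q < q := ZMod.val_lt _
  have hj0c : ((rc a d q : ℕ) : ZMod q) = -(a : ZMod q) * (d : ZMod q)⁻¹ := by
    rw [rc, ZMod.natCast_val, ZMod.cast_id]
  refine ⟨hj0q, fun j => ?_⟩
  have h1 : q ∣ a + j * d ↔ (j : ZMod q) = ((rc a d q : ℕ) : ZMod q) := by
    rw [← ZMod.natCast_eq_zero_iff, hj0c]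
    push_cast
    constructor
    · intro h
      field_simp
      linear_combination h
    · intro h
      rw [h]
      field_simp
      ring
  rw [h1, ZMod.natCast_eq_natCast_iff', Nat.mod_eq_of_lt hj0q]

/-- adding one prime -/
theorem cnt_step (Q : Finset ℕ) (q : ℕ) (hqQ : q ∉ Q) (ε E : ℝ) (hε : 0 ≤ ε)
    (ih : ∀ (a d u w : ℕ), (∀ q ∈ Q, q.Prime ∧ ¬ q ∣ d) → u ≤ w →
      |(((Finset.Ico u w).filter (fun j => ∀ q ∈ Q, ¬ q ∣ a + j * d)).card : ℝ)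
      - ((w : ℝ) - u) * ∏ q ∈ Q, (1 - (q : ℝ)⁻¹)| ≤
        ε * (((w : ℝ) - u) * ∏ q ∈ Q, (1 - (q : ℝ)⁻¹)) + E) :
    ∀ (a d u w : ℕ), (∀ p ∈ insert q Q, p.Prime ∧ ¬ p ∣ d) → u ≤ w →
      |(((Finset.Ico u w).filter (fun j => ∀ p ∈ insert q Q, ¬ p ∣ a + j * d)).card : ℝ)
      - ((w : ℝ) - u) * ∏ p ∈ insert q Q, (1 - (p : ℝ)⁻¹)| ≤
        (3 * ε) * (((w : ℝ) - u) * ∏ p ∈ insert q Q, (1 - (p : ℝ)⁻¹)) + (2 * E + 1 + ε) := by
  classical
  intro a d u w hQ huw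
  obtain ⟨hq, hqd⟩ := hQ q (Finset.mem_insert_self q Q)
  have hq0 : 0 < q := hq.pos
  have hQ' : ∀ p ∈ Q, p.Prime ∧ ¬ p ∣ d := fun p hp => hQ p (Finset.mem_insert_of_mem hp)
  have : Fact q.Prime := ⟨hq⟩
  have hd0 : (d : ZMod q) ≠ 0 := by
    rwa [Ne, ZMod.natCast_eq_zero_iff]
  set j0 : ℕ := (-(a : ZMod q) * (d : ZMod q)⁻¹).val with hj0
  have hj0q : j0 < q := ZMod.val_lt _
  have hj0c : (j0 : ZMod q) = -(a : ZMod q) * (d : ZMod q)⁻¹ := by
    rw [hj0, ZMod.natCast_val, ZMod.cast_id]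
  have hdiv : ∀ j : ℕ, q ∣ a + j * d ↔ j % q = j0 := by
    intro j
    have h1 : q ∣ a + j * d ↔ (j : ZMod q) = (j0 : ZMod q) := by
      rw [← ZMod.natCast_eq_zero_iff, hj0c]
      push_cast
      constructor
      · intro h
        field_simp
        linear_combination h
      · intro h
        rw [h]
        field_simp
        ring
    rw [h1, ZMod.natCast_eq_natCast_iff', Nat.mod_eq_of_lt hj0q]
  have hQ'' : ∀ p ∈ Q, p.Prime ∧ ¬ p ∣ q * d := by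
    intro p hp
    refine ⟨(hQ' p hp).1, fun h => ?_⟩
    rcases ((hQ' p hp).1.dvd_mul).1 h with h | h
    · rw [Nat.prime_dvd_prime_iff_eq (hQ' p hp).1 hq] at h
      exact hqQ (h ▸ hp)
    · exact (hQ' p hp).2 h
  set c : ℕ := q - 1 - j0 with hc
  set u' : ℕ := (u + c) / q with hu'
  set w' : ℕ := (w + c) / q with hw'
  have huw' : u' ≤ w' := Nat.div_le_div_right (by omega)
  have i1 := ih a d u w hQ' huw
  have i2 := ih (a + j0 * d) (q * d) u' w' hQ'' huw'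
  -- the splitting
  have hsplit : ((Finset.Ico u w).filter (fun j => ∀ p ∈ insert q Q, ¬ p ∣ a + j * d)).card +
      ((Finset.Ico u' w').filter (fun i => ∀ p ∈ Q, ¬ p ∣ (a + j0 * d) + i * (q * d))).card =
      ((Finset.Ico u w).filter (fun j => ∀ p ∈ Q, ¬ p ∣ a + j * d)).card := by
    have e1 : ((Finset.Ico u' w').filter
        (fun i => ∀ p ∈ Q, ¬ p ∣ (a + j0 * d) + i * (q * d))).card =
        (((Finset.Ico u w).filter (fun j => ∀ p ∈ Q, ¬ p ∣ a + j * d)).filter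
          (fun j => q ∣ a + j * d)).card := by
      refine Finset.card_bij (fun i _ => j0 + q * i) ?_ ?_ ?_
      · intro i hi
        rw [Finset.mem_filter, Finset.mem_Ico] at hi
        obtain ⟨⟨h1, h2⟩, h3⟩ := hi
        rw [Finset.mem_filter, Finset.mem_filter, Finset.mem_Ico]
        have h1' : (u + c) / q < i + 1 := by omega
        rw [Nat.div_lt_iff_lt_mul hq0] at h1'
        have h2' : i + 1 ≤ (w + c) / q := h2
        rw [Nat.le_div_iff_mul_le hq0] at h2'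
        have e : (i + 1) * q = q * i + q := by ring
        rw [e] at h1' h2'
        refine ⟨⟨⟨by omega, by omega⟩, fun p hp => ?_⟩, ?_⟩
        · have h4 := h3 p hp
          have h5 : a + (j0 + q * i) * d = (a + j0 * d) + i * (q * d) := by ring
          rw [h5]
          exact h4
        · rw [hdiv, Nat.add_mul_mod_self_left, Nat.mod_eq_of_lt hj0q]
      · intro i _ i' _ h
        have h1 : q * i = q * i' := by
          omega
        exact Nat.eq_of_mul_eq_mul_left hq0 h1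
      · intro j hj
        rw [Finset.mem_filter, Finset.mem_filter, Finset.mem_Ico] at hj
        obtain ⟨⟨⟨h1, h2⟩, h3⟩, h4⟩ := hj
        rw [hdiv] at h4
        have h5 : j0 + q * (j / q) = j := by
          rw [← h4]
          exact Nat.mod_add_div j q
        refine ⟨j / q, ?_, h5⟩
        rw [Finset.mem_filter, Finset.mem_Ico]
        have e : (j / q + 1) * q = q * (j / q) + q := by ring
        refine ⟨⟨?_, ?_⟩, fun p hp => ?_⟩
        · have h6 : (u + c) / q < j / q + 1 := by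
            rw [Nat.div_lt_iff_lt_mul hq0, e]
            omega
          exact Nat.lt_succ_iff.1 h6
        · have h6 : j / q + 1 ≤ (w + c) / q := by
            rw [Nat.le_div_iff_mul_le hq0, e]
            omega
          exact h6
        · have h6 := h3 p hp
          have h7 : a + j * d = (a + j0 * d) + (j / q) * (q * d) := by
            conv_lhs => rw [← h5]
            ring
          rwa [h7] at h6
    have e2 : ((Finset.Ico u w).filter (fun j => ∀ p ∈ insert q Q, ¬ p ∣ a + j * d)) =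
        ((Finset.Ico u w).filter (fun j => ∀ p ∈ Q, ¬ p ∣ a + j * d)).filter
          (fun j => ¬ q ∣ a + j * d) := by
      ext j
      simp only [Finset.mem_filter, Finset.mem_insert, forall_eq_or_imp]
      tauto
    rw [e1, e2, add_comm]
    exact Finset.card_filter_add_card_filter_not _
  -- the lengths
  have hq0R : (0 : ℝ) < q := by exact_mod_cast hq0
  have hlen : |((w' : ℝ) - u') - ((w : ℝ) - u) * (q : ℝ)⁻¹| ≤ 1 := by
    have h1 : (q : ℝ) * u' + ((u + c) % q : ℕ) = u + c := by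
      have := Nat.div_add_mod (u + c) q
      rw [← hu'] at this
      exact_mod_cast this
    have h2 : (q : ℝ) * w' + ((w + c) % q : ℕ) = w + c := by
      have := Nat.div_add_mod (w + c) q
      rw [← hw'] at this
      exact_mod_cast this
    have h3 : (((u + c) % q : ℕ) : ℝ) ≤ q := by
      exact_mod_cast (Nat.mod_lt _ hq0).le
    have h4 : (((w + c) % q : ℕ) : ℝ) ≤ q := by
      exact_mod_cast (Nat.mod_lt _ hq0).le
    have h5 : (0 : ℝ) ≤ (((u + c) % q : ℕ) : ℝ) := Nat.cast_nonneg _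
    have h6 : (0 : ℝ) ≤ (((w + c) % q : ℕ) : ℝ) := Nat.cast_nonneg _
    have h7 : ((w' : ℝ) - u') - ((w : ℝ) - u) * (q : ℝ)⁻¹ =
        ((((u + c) % q : ℕ) : ℝ) - (((w + c) % q : ℕ) : ℝ)) * (q : ℝ)⁻¹ := by
      field_simp
      linear_combination h2 - h1
    rw [h7, abs_mul, abs_of_pos (inv_pos.2 hq0R), ← div_eq_mul_inv, div_le_one hq0R, abs_le]
    constructor <;> linarith
  -- the product
  set π : ℝ := ∏ p ∈ Q, (1 - (p : ℝ)⁻¹) with hπ
  have hfac : ∀ p ∈ Q, 0 ≤ 1 - (p : ℝ)⁻¹ ∧ 1 - (p : ℝ)⁻¹ ≤ 1 := by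
    intro p hp
    have h1 : (1 : ℝ) ≤ p := by exact_mod_cast (hQ' p hp).1.one_le
    have h2 : (p : ℝ)⁻¹ ≤ 1 := inv_le_one_of_one_le₀ h1
    have h3 : (0 : ℝ) ≤ (p : ℝ)⁻¹ := by positivity
    constructor <;> linarith
  have hπ0 : 0 ≤ π := Finset.prod_nonneg fun p hp => (hfac p hp).1
  have hπ1 : π ≤ 1 := Finset.prod_le_one (fun p hp => (hfac p hp).1) fun p hp => (hfac p hp).2
  rw [Finset.prod_insert hqQ]
  have hs : (((Finset.Ico u w).filter (fun j => ∀ p ∈ insert q Q, ¬ p ∣ a + j * d)).card : ℝ) =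
      (((Finset.Ico u w).filter (fun j => ∀ p ∈ Q, ¬ p ∣ a + j * d)).card : ℝ) -
      (((Finset.Ico u' w').filter
        (fun i => ∀ p ∈ Q, ¬ p ∣ (a + j0 * d) + i * (q * d))).card : ℝ) := by
    rw [← hsplit]
    push_cast
    ring
  rw [hs]
  have h8 : |(((w' : ℝ) - u') - ((w : ℝ) - u) * (q : ℝ)⁻¹) * π| ≤ 1 := by
    rw [abs_mul, abs_of_nonneg hπ0]
    calc _ ≤ 1 * π := mul_le_mul_of_nonneg_right hlen hπ0
      _ ≤ 1 := by rw [one_mul]; exact hπ1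
  -- the relative error
  have hqi : (q : ℝ)⁻¹ ≤ 1 / 2 := by
    rw [one_div]
    exact inv_anti₀ (by norm_num) (by exact_mod_cast hq.two_le)
  have hL : 0 ≤ (w : ℝ) - u := by
    have : (u : ℝ) ≤ w := by exact_mod_cast huw
    linarith
  have hLπ : 0 ≤ ((w : ℝ) - u) * π := mul_nonneg hL hπ0
  have h9 : ε * (((w' : ℝ) - u') * π) ≤ ε * (((w : ℝ) - u) * (q : ℝ)⁻¹ * π + 1) := by
    apply mul_le_mul_of_nonneg_left _ hε
    rw [abs_le] at h8
    linarith [h8.2, sub_mul ((w' : ℝ) - u') (((w : ℝ) - u) * (q : ℝ)⁻¹) π]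
  have h10 : 0 ≤ ε * (((w : ℝ) - u) * π) := mul_nonneg hε hLπ
  have h11 : ε * (((w : ℝ) - u) * π) + ε * (((w : ℝ) - u) * (q : ℝ)⁻¹ * π) ≤
      3 * ε * (((w : ℝ) - u) * ((1 - (q : ℝ)⁻¹) * π)) := by
    have e1 : 3 * ε * (((w : ℝ) - u) * ((1 - (q : ℝ)⁻¹) * π)) -
        (ε * (((w : ℝ) - u) * π) + ε * (((w : ℝ) - u) * (q : ℝ)⁻¹ * π)) =
        (2 - 4 * (q : ℝ)⁻¹) * (ε * (((w : ℝ) - u) * π)) := by
      ring
    have e2 : 0 ≤ (2 - 4 * (q : ℝ)⁻¹) * (ε * (((w : ℝ) - u) * π)) :=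
      mul_nonneg (by linarith) h10
    linarith
  have h12 : ε * (((w : ℝ) - u) * (q : ℝ)⁻¹ * π + 1) =
      ε * (((w : ℝ) - u) * (q : ℝ)⁻¹ * π) + ε := by ring
  rw [h12] at h9
  rw [abs_le] at i1 i2 h8 ⊢
  have e3 : ((w : ℝ) - u) * ((1 - (q : ℝ)⁻¹) * π) =
      ((w : ℝ) - u) * π - ((w : ℝ) - u) * (q : ℝ)⁻¹ * π := by ring
  have e4 : (((w' : ℝ) - u') - ((w : ℝ) - u) * (q : ℝ)⁻¹) * π =
      ((w' : ℝ) - u') * π - ((w : ℝ) - u) * (q : ℝ)⁻¹ * π := by ring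
  rw [e4] at h8
  constructor
  · linarith [i1.1, i2.2, h8.1, h8.2]
  · linarith [i1.2, i2.1, h8.1, h8.2]

/-- adding a set of primes -/
theorem cnt_ind (P : Finset ℕ) (ε E : ℝ) (hε : 0 ≤ ε) (hE : 0 ≤ E)
    (hP : ∀ (a d u w : ℕ), (∀ q ∈ P, q.Prime ∧ ¬ q ∣ d) → u ≤ w →
      |(((Finset.Ico u w).filter (fun j => ∀ q ∈ P, ¬ q ∣ a + j * d)).card : ℝ)
      - ((w : ℝ) - u) * ∏ q ∈ P, (1 - (q : ℝ)⁻¹)| ≤
        ε * (((w : ℝ) - u) * ∏ q ∈ P, (1 - (q : ℝ)⁻¹)) + E) (Q : Finset ℕ) :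
    (∀ q ∈ Q, q ∉ P) → ∀ (a d u w : ℕ), (∀ q ∈ Q ∪ P, q.Prime ∧ ¬ q ∣ d) → u ≤ w →
      |(((Finset.Ico u w).filter (fun j => ∀ q ∈ Q ∪ P, ¬ q ∣ a + j * d)).card : ℝ)
      - ((w : ℝ) - u) * ∏ q ∈ Q ∪ P, (1 - (q : ℝ)⁻¹)| ≤
        (3 ^ Q.card * ε) * (((w : ℝ) - u) * ∏ q ∈ Q ∪ P, (1 - (q : ℝ)⁻¹)) +
          3 ^ Q.card * (E + 1 + ε) := by
  classical
  induction Q using Finset.induction_on with
  | empty =>
    intro _ a d u w h huw
    rw [Finset.empty_union] at h ⊢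
    simp only [Finset.card_empty, pow_zero, one_mul]
    have := hP a d u w h huw
    linarith
  | insert q Q hqQ ih =>
    intro hd a d u w h huw
    have h1 := ih (fun p hp => hd p (Finset.mem_insert_of_mem hp))
    have hq : q ∉ Q ∪ P := by
      rw [Finset.mem_union, not_or]
      exact ⟨hqQ, hd q (Finset.mem_insert_self _ _)⟩
    rw [Finset.insert_union] at h ⊢
    have h2 := cnt_step (Q ∪ P) q hq _ _ (mul_nonneg (by positivity) hε) h1 a d u w h huw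
    rw [Finset.card_insert_of_notMem hqQ]
    refine h2.trans ?_
    have e1 : (3 : ℝ) * (3 ^ Q.card * ε) = 3 ^ (Q.card + 1) * ε := by ring
    rw [e1]
    have e2 : (1 : ℝ) ≤ 3 ^ Q.card := one_le_pow₀ (by norm_num)
    have e3 : 2 * (3 ^ Q.card * (E + 1 + ε)) + 1 + 3 ^ Q.card * ε ≤
        3 ^ (Q.card + 1) * (E + 1 + ε) := by
      rw [pow_succ]
      nlinarith [mul_nonneg (sub_nonneg.2 e2) hE]
    linarith

/-- the large primes -/
theorem cnt_large : ∃ C0 : ℕ, 1 ≤ C0 ∧ ∀ (b J : ℕ) (P : Finset ℕ), C0 ≤ b →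
    (∀ p ∈ P, p.Prime ∧ C0 < p ∧ p ≤ 2 ^ 2 ^ J) →
    ∀ (a d u w : ℕ), (∀ q ∈ P, q.Prime ∧ ¬ q ∣ d) → u ≤ w →
      |(((Finset.Ico u w).filter (fun j => ∀ q ∈ P, ¬ q ∣ a + j * d)).card : ℝ)
      - ((w : ℝ) - u) * ∏ q ∈ P, (1 - (q : ℝ)⁻¹)| ≤
        (1 / 2) ^ b * (((w : ℝ) - u) * ∏ q ∈ P, (1 - (q : ℝ)⁻¹)) +
          ((J : ℝ) + 2) * (((2 ^ 2 ^ J : ℕ) : ℝ) ^ (C0 * b)) ^ 2 := by
  classical
  obtain ⟨C0, hC0, h⟩ := Pool.Agent.TH882.FL.fl1 1
  refine ⟨C0, hC0, fun b J P hb hP a d u w hPd huw => ?_⟩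
  have hL : 0 ≤ (w : ℝ) - u := by
    have : (u : ℝ) ≤ w := by exact_mod_cast huw
    linarith
  have h1 := h b J C0 P (fun q => {rc a d q}) hb le_rfl hP (fun p _ => by simp) (Finset.Ico u w)
    ((w : ℝ) - u) hL (by
      intro T hT c hc
      refine cnt_crt u w huw T (fun p hp => (hP p (hT hp)).1) c fun p hp => ?_
      have h2 := hc p hp
      rw [Finset.mem_singleton] at h2
      rw [h2]
      exact (rc_spec (hP p (hT hp)).1 (hPd p (hT hp)).2).1)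
  have e1 : (Finset.Ico u w).filter (fun n => ∀ p ∈ P, n % p ∉ ({rc a d p} : Finset ℕ)) =
      (Finset.Ico u w).filter (fun j => ∀ q ∈ P, ¬ q ∣ a + j * d) := by
    refine Finset.filter_congr fun j _ => ?_
    refine forall₂_congr fun q hq => ?_
    rw [Finset.mem_singleton, (rc_spec (hPd q hq).1 (hPd q hq).2).2 j]
  have e2 : ∏ p ∈ P, (1 - ((({rc a d p} : Finset ℕ).card : ℕ) : ℝ) / p) =
      ∏ q ∈ P, (1 - (q : ℝ)⁻¹) := by
    refine Finset.prod_congr rfl fun p _ => ?_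
    rw [Finset.card_singleton, Nat.cast_one, one_div]
  rw [e1, e2] at h1
  exact h1

/-- the minimal exponent -/
lemma exists_J (v : ℕ) : ∃ J : ℕ, v ≤ 2 ^ 2 ^ J ∧ J ≤ v ∧ 2 ^ 2 ^ J ≤ (v + 2) ^ 2 := by
  have hex : ∃ J : ℕ, v ≤ 2 ^ 2 ^ J := by
    refine ⟨v, ?_⟩
    calc v ≤ 2 ^ v := Nat.lt_two_pow_self.le
      _ ≤ 2 ^ 2 ^ v := Nat.pow_le_pow_right (by norm_num) Nat.lt_two_pow_self.le
  classical
  refine ⟨Nat.find hex, Nat.find_spec hex, ?_, ?_⟩
  · rcases hJ : Nat.find hex with _ | J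
    · exact Nat.zero_le _
    · have h1 : ¬ v ≤ 2 ^ 2 ^ J := Nat.find_min hex (by omega)
      push Not at h1
      have h2 : J < 2 ^ J := Nat.lt_two_pow_self
      have h3 : 2 ^ J < 2 ^ 2 ^ J := Nat.lt_two_pow_self
      omega
  · rcases hJ : Nat.find hex with _ | J
    · have h1 : 2 ^ 2 ≤ (v + 2) ^ 2 := Nat.pow_le_pow_left (by omega) 2
      rw [pow_zero, pow_one]
      omega
    · have h1 : ¬ v ≤ 2 ^ 2 ^ J := Nat.find_min hex (by omega)
      push Not at h1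
      calc 2 ^ 2 ^ (J + 1) = (2 ^ 2 ^ J) ^ 2 := by
            rw [pow_succ 2 J, pow_mul]
        _ ≤ (v + 2) ^ 2 := Nat.pow_le_pow_left (by omega) 2

theorem t_CNT : s_CNT := by
  classical
  intro ε hε
  obtain ⟨C0, hC0, hl⟩ := cnt_large
  have hmin : 0 < min ε 1 / 3 ^ C0 := by
    have : 0 < min ε 1 := lt_min hε one_pos
    positivity
  obtain ⟨n, hn⟩ := exists_pow_lt_of_lt_one hmin (by norm_num : (1 / 2 : ℝ) < 1)
  set b : ℕ := C0 + n with hb
  have hbε : (3 : ℝ) ^ C0 * (1 / 2) ^ b ≤ min ε 1 := by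
    have h1 : (1 / 2 : ℝ) ^ b ≤ (1 / 2) ^ n :=
      pow_le_pow_of_le_one (by norm_num) (by norm_num) (by omega)
    have h2 : (1 / 2 : ℝ) ^ b ≤ min ε 1 / 3 ^ C0 := h1.trans hn.le
    rw [le_div_iff₀ (by positivity)] at h2
    linarith
  refine ⟨2 * C0 + 2 + 4 * (C0 * b), ?_⟩
  intro d a v u w hd hco huw
  obtain ⟨J, hJ1, hJ2, hJ3⟩ := exists_J v
  set P : Finset ℕ := (Finset.Icc 1 v).filter (fun q => (q.Prime ∧ ¬ q ∣ d) ∧ C0 < q) with hP
  set Q : Finset ℕ := (Finset.Icc 1 v).filter (fun q => (q.Prime ∧ ¬ q ∣ d) ∧ ¬ C0 < q) with hQ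
  have hU : Q ∪ P = (Finset.Icc 1 v).filter (fun q => q.Prime ∧ ¬ q ∣ d) := by
    ext q
    rw [Finset.mem_union, hP, hQ, Finset.mem_filter, Finset.mem_filter, Finset.mem_filter]
    tauto
  set E : ℝ := ((J : ℝ) + 2) * (((2 ^ 2 ^ J : ℕ) : ℝ) ^ (C0 * b)) ^ 2 with hE
  have hE0 : 0 ≤ E := by positivity
  have h0 := cnt_ind P ((1 / 2) ^ b) E (by positivity) hE0 (hl b J P (by omega) (by
      intro p hp
      rw [hP, Finset.mem_filter, Finset.mem_Icc] at hp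
      exact ⟨hp.2.1.1, hp.2.2, hp.1.2.trans hJ1⟩)) Q (by
      intro q hq hq'
      rw [hQ, Finset.mem_filter] at hq
      rw [hP, Finset.mem_filter] at hq'
      exact hq.2.2 hq'.2.2) a d u w (by
      intro q hq
      rw [hU, Finset.mem_filter] at hq
      exact hq.2) huw
  have h2 : ((Finset.Ico u w).filter (fun j => ∀ q ∈ Finset.Icc 1 v, q.Prime → ¬ q ∣ a + j * d)) =
      (Finset.Ico u w).filter (fun j => ∀ q ∈ Q ∪ P, ¬ q ∣ a + j * d) := by
    refine Finset.filter_congr fun j _ => ?_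
    constructor
    · intro h q hq
      rw [hU, Finset.mem_filter] at hq
      exact h q hq.1 hq.2.1
    · intro h q hq hp hdiv
      by_cases hqd : q ∣ d
      · have h3 : q ∣ a := (Nat.dvd_add_left (Dvd.dvd.mul_left hqd j)).1 hdiv
        have h4 : q ∣ Nat.gcd a d := Nat.dvd_gcd h3 hqd
        rw [hco] at h4
        exact hp.one_lt.ne' (Nat.dvd_one.1 h4)
      · exact h q (by rw [hU, Finset.mem_filter]; exact ⟨hq, hp, hqd⟩) hdiv
  rw [h2]
  have h3 : Dn d v = ∏ q ∈ Q ∪ P, (1 - (q : ℝ)⁻¹) := by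
    rw [hU]
    rfl
  rw [h3]
  refine h0.trans ?_
  have hL : 0 ≤ (w : ℝ) - u := by
    have : (u : ℝ) ≤ w := by exact_mod_cast huw
    linarith
  have hπ0 : 0 ≤ ∏ q ∈ Q ∪ P, (1 - (q : ℝ)⁻¹) := by
    refine Finset.prod_nonneg fun p hp => ?_
    rw [hU, Finset.mem_filter] at hp
    have h1 : (1 : ℝ) ≤ p := by exact_mod_cast hp.2.1.one_le
    have h2 : (p : ℝ)⁻¹ ≤ 1 := inv_le_one_of_one_le₀ h1
    linarith
  have hQc : Q.card ≤ C0 := by
    have h1 : Q ⊆ Finset.Icc 1 C0 := by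
      intro q hq
      rw [hQ, Finset.mem_filter, Finset.mem_Icc] at hq
      rw [Finset.mem_Icc]
      exact ⟨hq.1.1, by omega⟩
    have h2 := Finset.card_le_card h1
    rwa [Nat.card_Icc, Nat.add_sub_cancel] at h2
  have h3Q : (3 : ℝ) ^ Q.card ≤ 3 ^ C0 := pow_le_pow_right₀ (by norm_num) hQc
  have hr : (3 : ℝ) ^ Q.card * (1 / 2) ^ b ≤ min ε 1 :=
    (mul_le_mul_of_nonneg_right h3Q (by positivity)).trans hbε
  have hrel : (3 : ℝ) ^ Q.card * (1 / 2) ^ b * (((w : ℝ) - u) * ∏ q ∈ Q ∪ P, (1 - (q : ℝ)⁻¹)) ≤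
      ε * (((w : ℝ) - u) * ∏ q ∈ Q ∪ P, (1 - (q : ℝ)⁻¹)) :=
    mul_le_mul_of_nonneg_right (hr.trans (min_le_left _ _)) (mul_nonneg hL hπ0)
  have hv2 : (2 : ℝ) ≤ (v : ℝ) + 2 := by
    have : (0 : ℝ) ≤ v := Nat.cast_nonneg _
    linarith
  have hEb : E ≤ ((v : ℝ) + 2) ^ (1 + 4 * (C0 * b)) := by
    have h4 : ((J : ℝ) + 2) ≤ (v : ℝ) + 2 := by
      have : (J : ℝ) ≤ v := by exact_mod_cast hJ2
      linarith
    have h5 : (((2 ^ 2 ^ J : ℕ) : ℝ) ^ (C0 * b)) ^ 2 ≤ ((((v : ℝ) + 2) ^ 2) ^ (C0 * b)) ^ 2 := by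
      have h6 : ((2 ^ 2 ^ J : ℕ) : ℝ) ≤ ((v : ℝ) + 2) ^ 2 := by exact_mod_cast hJ3
      exact pow_le_pow_left₀ (by positivity) (pow_le_pow_left₀ (by positivity) h6 _) _
    calc E ≤ ((v : ℝ) + 2) * ((((v : ℝ) + 2) ^ 2) ^ (C0 * b)) ^ 2 :=
          mul_le_mul h4 h5 (by positivity) (by linarith)
      _ = ((v : ℝ) + 2) ^ (1 + 4 * (C0 * b)) := by
          rw [← pow_mul, ← pow_mul, pow_add, pow_one]
          congr 2
          ring
  have hE1 : (1 : ℝ) ≤ ((v : ℝ) + 2) ^ (4 * (C0 * b)) := one_le_pow₀ (by linarith)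
  have hbb : ((1 : ℝ) / 2) ^ b ≤ 1 := pow_le_one₀ (by norm_num) (by norm_num)
  have hE2 : E + 1 + (1 / 2) ^ b ≤ ((v : ℝ) + 2) ^ (2 + 4 * (C0 * b)) := by
    have e1 : ((v : ℝ) + 2) ^ (2 + 4 * (C0 * b)) =
        ((v : ℝ) + 2) * (((v : ℝ) + 2) * ((v : ℝ) + 2) ^ (4 * (C0 * b))) := by
      rw [pow_add]
      ring
    have e2 : ((v : ℝ) + 2) ^ (1 + 4 * (C0 * b)) =
        ((v : ℝ) + 2) * ((v : ℝ) + 2) ^ (4 * (C0 * b)) := by
      rw [pow_add, pow_one]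
    rw [e2] at hEb
    rw [e1]
    have e3 : (2 : ℝ) ≤ ((v : ℝ) + 2) * ((v : ℝ) + 2) ^ (4 * (C0 * b)) := by nlinarith
    nlinarith
  have h33 : (3 : ℝ) ^ Q.card ≤ ((v : ℝ) + 2) ^ (2 * C0) := by
    refine h3Q.trans ?_
    rw [pow_mul]
    exact pow_le_pow_left₀ (by norm_num) (by nlinarith) _
  have habs : (3 : ℝ) ^ Q.card * (E + 1 + (1 / 2) ^ b) ≤
      ((v : ℝ) + 2) ^ (2 * C0 + 2 + 4 * (C0 * b)) := by
    calc (3 : ℝ) ^ Q.card * (E + 1 + (1 / 2) ^ b)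
        ≤ ((v : ℝ) + 2) ^ (2 * C0) * ((v : ℝ) + 2) ^ (2 + 4 * (C0 * b)) :=
          mul_le_mul h33 hE2 (by positivity) (by positivity)
      _ = ((v : ℝ) + 2) ^ (2 * C0 + 2 + 4 * (C0 * b)) := by
          rw [← pow_add, add_assoc]
  linarith

end Pool.Agent.J6H40.WG2
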