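import Pool.Agent.J6H40.WG2.Stm

set_option autoImplicit false

/-!
# Module AS of project WG2: the error terms of the sieve are `o(log d)`
-/

open Filter
open scoped Topology

namespace Pool.Agent.J6H40.WG2

/-- `X c d + d ≤ d ^ 2` for all large `d` -/
theorem as_X_le (c : ℝ) (hc : 0 < c) : ∀ᶠ d : ℕ in atTop, X c d + d ≤ d ^ 2 := by
  have h0 : (fun x : ℝ => Real.log x ^ 2) =o[atTop] (fun x : ℝ => x) :=
    Real.isLittleO_pow_log_id_atTop (n := 2)
  have h1 := h0.bound (show 0 < 1 / (2 * c) by positivity)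
  have h2 := tendsto_natCast_atTop_atTop (R := ℝ) |>.eventually h1
  filter_upwards [h2, eventually_ge_atTop 2] with d hd hd2
  have hdR : (2 : ℝ) ≤ (d : ℝ) := by exact_mod_cast hd2
  have hlog : Real.log d ^ 2 ≤ 1 / (2 * c) * d := by
    have := hd
    rw [Real.norm_of_nonneg (by positivity), Real.norm_of_nonneg (by positivity)] at this
    exact this
  have hphi : (Nat.totient d : ℝ) ≤ d := by exact_mod_cast Nat.totient_le d
  have hX : (X c d : ℝ) ≤ c * (Nat.totient d : ℝ) * Real.log d ^ 2 := by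
    unfold X
    exact Nat.floor_le (by positivity)
  have hX2 : c * (Nat.totient d : ℝ) * Real.log d ^ 2 ≤ (d : ℝ) ^ 2 / 2 := by
    calc c * (Nat.totient d : ℝ) * Real.log d ^ 2 ≤ c * (d : ℝ) * (1 / (2 * c) * d) := by gcongr
      _ = (d : ℝ) ^ 2 / 2 := by field_simp
  have h3 : (d : ℝ) ≤ (d : ℝ) ^ 2 / 2 := by nlinarith
  have h4 : ((X c d + d : ℕ) : ℝ) ≤ ((d ^ 2 : ℕ) : ℝ) := by
    push_cast
    linarith
  exact_mod_cast h4

theorem t_AS : s_AS := by
  intro z hz c hc s
  obtain ⟨hmono, hsl⟩ := hz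
  set δ : ℝ := 1 / (2 * ((s : ℝ) + 1)) with hδ
  have hδ0 : 0 < δ := by positivity
  have hlogd : Tendsto (fun d : ℕ => 2 * Real.log (d : ℝ)) atTop atTop :=
    (Real.tendsto_log_atTop.comp tendsto_natCast_atTop_atTop).const_mul_atTop (by norm_num)
  have hlim : Tendsto (fun t : ℝ => 2 * 3 ^ s * t ^ (-(1 / 2 : ℝ))) atTop (𝓝 0) := by
    have := (tendsto_rpow_neg_atTop (by norm_num : (0 : ℝ) < 1 / 2)).const_mul (2 * 3 ^ s : ℝ)
    simpa using this
  have hcomp := hlim.comp hlogd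
  have hsq : Tendsto (fun d : ℕ => d ^ 2) atTop atTop :=
    tendsto_pow_atTop (by norm_num)
  refine squeeze_zero' ?_ ?_ hcomp
  · filter_upwards [eventually_ge_atTop 1] with d hd
    have : 0 ≤ Real.log (d : ℝ) := Real.log_natCast_nonneg d
    positivity
  · filter_upwards [as_X_le c hc, hsq.eventually (hsl δ hδ0),
      hlogd.eventually (eventually_ge_atTop 1)] with d hX hd ht
    simp only [Function.comp_apply]
    set t : ℝ := 2 * Real.log (d : ℝ) with ht_def
    have htpos : 0 < t := by linarith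
    have htδ : 1 ≤ t ^ δ := Real.one_le_rpow ht hδ0.le
    have hV : (z (X c d + d) : ℝ) + 2 ≤ 3 * t ^ δ := by
      have h1 : (z (X c d + d) : ℝ) ≤ (z (d ^ 2) : ℝ) := by exact_mod_cast hmono hX
      have h2 : Real.log ((d ^ 2 : ℕ) : ℝ) = t := by
        push_cast
        rw [Real.log_pow]
        norm_num [ht_def]
      rw [h2] at hd
      linarith
    have hpow : ((z (X c d + d) : ℝ) + 2) ^ s ≤ 3 ^ s * t ^ (1 / 2 : ℝ) := by
      have h3 : ((z (X c d + d) : ℝ) + 2) ^ s ≤ (3 * t ^ δ) ^ s :=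
        pow_le_pow_left₀ (by positivity) hV s
      have h4 : (3 * t ^ δ) ^ s = 3 ^ s * t ^ (δ * s) := by
        rw [mul_pow, ← Real.rpow_mul_natCast htpos.le]
      have h5 : δ * s ≤ 1 / 2 := by
        rw [hδ, div_mul_eq_mul_div, one_mul, div_le_div_iff₀ (by positivity) (by norm_num)]
        linarith
      have h6 : t ^ (δ * s) ≤ t ^ (1 / 2 : ℝ) := Real.rpow_le_rpow_of_exponent_le ht h5
      rw [h4] at h3
      exact h3.trans (mul_le_mul_of_nonneg_left h6 (by positivity))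
    have hL : Real.log (d : ℝ) = t / 2 := by rw [ht_def]; ring
    rw [hL, div_le_iff₀ (by positivity)]
    refine hpow.trans (le_of_eq ?_)
    have h7 : t ^ (1 / 2 : ℝ) = t ^ (-(1 / 2 : ℝ)) * t := by
      have h8 : t ^ (-(1 / 2 : ℝ)) * t = t ^ (-(1 / 2 : ℝ)) * t ^ (1 : ℝ) := by rw [Real.rpow_one]
      rw [h8, ← Real.rpow_add htpos]
      norm_num
    rw [h7]
    ring

end Pool.Agent.J6H40.WG2
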