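import Pool.Agent.J6H40.WG2.Stm

/-!
# Module BLK: the sum over the blocks on which the sieving bound is constant
-/

set_option autoImplicit false

namespace Pool.Agent.J6H40.WG2

theorem t_BLK (h1 : s_CNT) (h2 : s_WB) : s_BLK := by
  intro ε hε
  obtain ⟨s, hs⟩ := h1 ε hε
  refine ⟨s + 2, ?_⟩
  intro z hz d a V u w hd had huw hV R hR1 hR2
  classical
  obtain ⟨f, hf⟩ : ∃ f : ℕ → ℕ, f = fun j => z (a + j * d) := ⟨_, rfl⟩
  have hfj : ∀ j, z (a + j * d) = f j := fun j => by rw [hf]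
  have hfm : Monotone f := by
    intro i j hij
    rw [← hfj, ← hfj]
    exact hz (Nat.add_le_add_left (Nat.mul_le_mul_right d hij) a)
  simp only [hfj]
  have key : ∀ v ∈ Finset.range (V + 1),
      |∑ j ∈ (Finset.Ico u w).filter (fun j => f j = v), (R j - W (f j) * Dn d (f j))| ≤
        ε * ∑ j ∈ (Finset.Ico u w).filter (fun j => f j = v), W (f j) * Dn d (f j) +
          ((V : ℝ) + 1) * ((V : ℝ) + 2) ^ s := by
    intro v hv
    have hvV : v ≤ V := Nat.lt_succ_iff.1 (Finset.mem_range.1 hv)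
    obtain ⟨u', w', huw', hF⟩ : ∃ u' w', u' ≤ w' ∧
        (Finset.Ico u w).filter (fun j => f j = v) = Finset.Ico u' w' := by
      rcases ((Finset.Ico u w).filter (fun j => f j = v)).eq_empty_or_nonempty with h | h
      · exact ⟨0, 0, le_rfl, by rw [h, Finset.Ico_self]⟩
      · refine ⟨((Finset.Ico u w).filter (fun j => f j = v)).min' h,
          ((Finset.Ico u w).filter (fun j => f j = v)).max' h + 1,
          (Finset.min'_le _ _ (Finset.max'_mem _ h)).trans (Nat.le_succ _), ?_⟩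
        have hmin := Finset.min'_mem _ h
        have hmax := Finset.max'_mem _ h
        ext j
        constructor
        · intro hj
          rw [Finset.mem_Ico]
          exact ⟨Finset.min'_le _ _ hj, Nat.lt_succ_of_le (Finset.le_max' _ _ hj)⟩
        · intro hj
          rw [Finset.mem_filter, Finset.mem_Ico] at hmin hmax ⊢
          rw [Finset.mem_Ico] at hj
          refine ⟨⟨hmin.1.1.trans hj.1, lt_of_le_of_lt (Nat.lt_succ_iff.1 hj.2) hmax.1.2⟩,
            le_antisymm ?_ ?_⟩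
          · exact (hfm (Nat.lt_succ_iff.1 hj.2)).trans hmax.2.le
          · exact hmin.2.ge.trans (hfm hj.1)
    have hfv : ∀ j ∈ Finset.Ico u' w', f j = v := by
      intro j hj
      rw [← hF] at hj
      exact (Finset.mem_filter.1 hj).2
    rw [hF]
    have hR : ∀ j ∈ Finset.Ico u' w', R j - W (f j) * Dn d (f j) =
        (if (∀ q ∈ Finset.Icc 1 v, q.Prime → ¬ q ∣ a + j * d) then W v else 0) -
          W v * Dn d v := by
      intro j hj
      have h3 := hfv j hj
      have h4 : Rough z (a + j * d) ↔ ∀ q ∈ Finset.Icc 1 v, q.Prime → ¬ q ∣ a + j * d := by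
        unfold Rough
        rw [hfj, h3]
        constructor
        · intro h q hq hqp
          exact h q hqp (Finset.mem_Icc.1 hq).2
        · intro h q hqp hq
          exact h q (Finset.mem_Icc.2 ⟨hqp.one_lt.le, hq⟩) hqp
      rw [h3]
      split_ifs with h5
      · rw [hR1 j (h4.2 h5), hfj, h3]
      · rw [hR2 j (fun h => h5 (h4.1 h))]
    have hW : ∀ j ∈ Finset.Ico u' w', W (f j) * Dn d (f j) = W v * Dn d v := by
      intro j hj
      rw [hfv j hj]
    rw [Finset.sum_congr rfl hR, Finset.sum_congr rfl hW, Finset.sum_sub_distrib,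
      ← Finset.sum_filter, Finset.sum_const,
      Finset.sum_const, Nat.card_Ico, nsmul_eq_mul, nsmul_eq_mul, Nat.cast_sub huw']
    have h5 := hs d a v u' w' hd had huw'
    obtain ⟨h6, h7⟩ := h2.1 v
    have h8 : ((((Finset.Ico u' w').filter (fun j => ∀ q ∈ Finset.Icc 1 v, q.Prime →
        ¬ q ∣ a + j * d)).card : ℝ) * W v - ((w' : ℝ) - u') * (W v * Dn d v)) =
        W v * ((((Finset.Ico u' w').filter (fun j => ∀ q ∈ Finset.Icc 1 v, q.Prime →
        ¬ q ∣ a + j * d)).card : ℝ) - ((w' : ℝ) - u') * Dn d v) := by ring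
    have h9 : (v : ℝ) ≤ V := by exact_mod_cast hvV
    have hW0 : 0 ≤ W v := zero_le_one.trans h6
    rw [h8, abs_mul, abs_of_nonneg hW0]
    have h10 : W v * ((v : ℝ) + 2) ^ s ≤ ((V : ℝ) + 1) * ((V : ℝ) + 2) ^ s :=
      mul_le_mul (h7.trans (by linarith)) (pow_le_pow_left₀ (by positivity) (by linarith) s)
        (by positivity) (by positivity)
    have h11 := mul_le_mul_of_nonneg_left h5 hW0
    refine h11.trans ?_
    have h12 : W v * (ε * (((w' : ℝ) - u') * Dn d v) + ((v : ℝ) + 2) ^ s) =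
        ε * (((w' : ℝ) - u') * (W v * Dn d v)) + W v * ((v : ℝ) + 2) ^ s := by ring
    rw [h12]
    linarith
  have hmaps : ∀ j ∈ Finset.Ico u w, f j ∈ Finset.range (V + 1) := by
    intro j hj
    rw [Finset.mem_range, ← hfj]
    exact Nat.lt_succ_of_le (hV j (Finset.mem_Ico.1 hj).2)
  have hsum : ∑ j ∈ Finset.Ico u w, W (f j) * Dn d (f j) = ∑ v ∈ Finset.range (V + 1),
      ∑ j ∈ (Finset.Ico u w).filter (fun j => f j = v), W (f j) * Dn d (f j) :=
    (Finset.sum_fiberwise_of_maps_to hmaps _).symm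
  rw [← Finset.sum_sub_distrib, ← Finset.sum_fiberwise_of_maps_to hmaps]
  refine (Finset.abs_sum_le_sum_abs _ _).trans ((Finset.sum_le_sum key).trans ?_)
  rw [Finset.sum_add_distrib, ← Finset.mul_sum, ← hsum, Finset.sum_const, Finset.card_range,
    nsmul_eq_mul]
  push_cast
  have h13 : ((V : ℝ) + 1) * (((V : ℝ) + 1) * ((V : ℝ) + 2) ^ s) ≤ ((V : ℝ) + 2) ^ (s + 2) := by
    have h14 : (0 : ℝ) ≤ ((V : ℝ) + 2) ^ s := by positivity
    have h15 : ((V : ℝ) + 1) * ((V : ℝ) + 1) ≤ ((V : ℝ) + 2) ^ 2 := by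
      have : (0 : ℝ) ≤ V := Nat.cast_nonneg V
      nlinarith
    calc ((V : ℝ) + 1) * (((V : ℝ) + 1) * ((V : ℝ) + 2) ^ s)
        = (((V : ℝ) + 1) * ((V : ℝ) + 1)) * ((V : ℝ) + 2) ^ s := by ring
      _ ≤ ((V : ℝ) + 2) ^ 2 * ((V : ℝ) + 2) ^ s := mul_le_mul_of_nonneg_right h15 h14
      _ = ((V : ℝ) + 2) ^ (s + 2) := by ring
  linarith

end Pool.Agent.J6H40.WG2
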