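import Pool.Agent.J6H40.WG2.Stm

/-!
# Project WG (helper40), module CH (helper27): Chebyshev
-/

set_option autoImplicit false

open MeasureTheory Filter
open scoped Topology

namespace Pool.Agent.J6H40.WG2

theorem t_CH : s_CH := by
  intro Ω mΩ μ _ ι I w δ B hI hδ hB hw h1 h2 h3
  classical
  have hn : (0 : ℝ) < I.card := by exact_mod_cast hI.card_pos
  have hint : ∀ i ∈ I, Integrable (w i) μ := by
    intro i hi
    obtain ⟨hm, C, hC⟩ := hw i hi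
    exact Integrable.of_bound hm.aestronglyMeasurable C (ae_of_all _ hC)
  have hint2 : ∀ i ∈ I, ∀ j ∈ I, Integrable (fun ω => w i ω * w j ω) μ := by
    intro i hi j hj
    obtain ⟨hm, C, hC⟩ := hw i hi
    obtain ⟨hm', C', hC'⟩ := hw j hj
    refine Integrable.of_bound (hm.mul hm').aestronglyMeasurable (C * C') (ae_of_all _ fun ω => ?_)
    rw [Real.norm_eq_abs, abs_mul]
    exact mul_le_mul (hC ω) (hC' ω) (abs_nonneg _) ((abs_nonneg _).trans (hC ω))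
  have hY : ∫ ω, ∑ i ∈ I, w i ω ∂μ = I.card := by
    rw [integral_finsetSum _ hint, Finset.sum_congr rfl h1]
    simp
  have hYi : Integrable (fun ω => ∑ i ∈ I, w i ω) μ := integrable_finsetSum _ hint
  have hsq : ∀ ω, (∑ i ∈ I, w i ω) ^ 2 = ∑ i ∈ I, ∑ j ∈ I, w i ω * w j ω := by
    intro ω
    rw [sq, Finset.sum_mul_sum]
  have hYYi : Integrable (fun ω => (∑ i ∈ I, w i ω) ^ 2) μ := by
    simp_rw [hsq]
    exact integrable_finsetSum _ fun i hi => integrable_finsetSum _ fun j hj => hint2 i hi j hj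
  have hYY : ∫ ω, (∑ i ∈ I, w i ω) ^ 2 ∂μ ≤ I.card * (B + I.card * (1 + 2 * δ)) := by
    simp_rw [hsq]
    rw [integral_finsetSum _ fun i hi => integrable_finsetSum _ fun j hj => hint2 i hi j hj]
    have h4 : ∀ i ∈ I, ∫ ω, ∑ j ∈ I, w i ω * w j ω ∂μ ≤ B + I.card * (1 + 2 * δ) := by
      intro i hi
      rw [integral_finsetSum _ (hint2 i hi), ← Finset.add_sum_erase I _ hi]
      refine add_le_add ?_ ?_
      · have h5 := h3 i hi
        simp_rw [sq] at h5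
        exact h5
      · have h6 : ∑ j ∈ I.erase i, ∫ ω, w i ω * w j ω ∂μ ≤ ∑ _j ∈ I.erase i, (1 + 2 * δ) := by
          refine Finset.sum_le_sum fun j hj => ?_
          rw [Finset.mem_erase] at hj
          exact h2 i hi j hj.2 (Ne.symm hj.1)
        refine h6.trans ?_
        rw [Finset.sum_const, nsmul_eq_mul]
        refine mul_le_mul_of_nonneg_right ?_ (by linarith)
        exact_mod_cast Finset.card_le_card (Finset.erase_subset i I)
    refine (Finset.sum_le_sum h4).trans ?_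
    rw [Finset.sum_const, nsmul_eq_mul]
  set n : ℝ := (I.card : ℝ) with hnd
  have hvar : ∫ ω, (∑ i ∈ I, w i ω - n) ^ 2 ∂μ ≤ n * B + 2 * δ * n ^ 2 := by
    have h5 : ∀ ω, (∑ i ∈ I, w i ω - n) ^ 2 = (∑ i ∈ I, w i ω) ^ 2 - 2 * n * ∑ i ∈ I, w i ω + n ^ 2 := by
      intro ω
      ring
    simp_rw [h5]
    have h6 : Integrable (fun ω => 2 * n * ∑ i ∈ I, w i ω) μ := hYi.const_mul _
    have e1 : ∫ ω, ((∑ i ∈ I, w i ω) ^ 2 - 2 * n * ∑ i ∈ I, w i ω + n ^ 2) ∂μ =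
        ∫ ω, ((∑ i ∈ I, w i ω) ^ 2 - 2 * n * ∑ i ∈ I, w i ω) ∂μ + ∫ _ω, n ^ 2 ∂μ :=
      integral_add (hYYi.sub h6) (integrable_const _)
    have e2 : ∫ ω, ((∑ i ∈ I, w i ω) ^ 2 - 2 * n * ∑ i ∈ I, w i ω) ∂μ =
        ∫ ω, (∑ i ∈ I, w i ω) ^ 2 ∂μ - ∫ ω, 2 * n * ∑ i ∈ I, w i ω ∂μ := integral_sub hYYi h6
    rw [e1, e2, integral_const_mul, hY]
    simp only [integral_const, probReal_univ, one_smul]
    nlinarith
  have hvi : Integrable (fun ω => (∑ i ∈ I, w i ω - n) ^ 2) μ := by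
    have h5 : ∀ ω, (∑ i ∈ I, w i ω - n) ^ 2 = (∑ i ∈ I, w i ω) ^ 2 - 2 * n * ∑ i ∈ I, w i ω + n ^ 2 := by
      intro ω
      ring
    simp_rw [h5]
    exact (hYYi.sub (hYi.const_mul _)).add (integrable_const _)
  have hM := mul_meas_ge_le_integral_of_nonneg (μ := μ) (f := fun ω => (∑ i ∈ I, w i ω - n) ^ 2)
    (ae_of_all _ fun ω => sq_nonneg _) hvi (n ^ 2)
  have hsub : {ω | ∀ i ∈ I, w i ω = 0} ⊆ {ω | n ^ 2 ≤ (∑ i ∈ I, w i ω - n) ^ 2} := by
    intro ω hω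
    have h6 : ∑ i ∈ I, w i ω = 0 := Finset.sum_eq_zero hω
    show n ^ 2 ≤ (∑ i ∈ I, w i ω - n) ^ 2
    rw [h6]
    apply le_of_eq
    ring
  have h7 := measureReal_mono (μ := μ) hsub
  have hn2 : 0 < n ^ 2 := by positivity
  have h8 : n ^ 2 * μ.real {ω | ∀ i ∈ I, w i ω = 0} ≤ n * B + 2 * δ * n ^ 2 :=
    (mul_le_mul_of_nonneg_left h7 hn2.le).trans (hM.trans hvar)
  have h9 : 2 * δ + B / n = (n * B + 2 * δ * n ^ 2) / n ^ 2 := by
    field_simp
    ring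
  rw [h9, le_div_iff₀ hn2, mul_comm]
  exact h8

end Pool.Agent.J6H40.WG2
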