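import Pool.Agent.J6H40.WG2.Stm

/-!
# Project WG, module DISD: the probability bound for one modulus
-/

set_option autoImplicit false

open MeasureTheory Filter
open scoped Topology

namespace Pool.Agent.J6H40.WG2

theorem DISD_mem {z : ℕ → ℕ} {d a x m : ℕ} (ha : a < d) (h : m ∈ T z d a 1 x) :
    1 ≤ m ∧ m % d = a ∧ a ≤ m ∧ Rough z m := by
  classical
  unfold T at h
  rw [Finset.mem_filter, Finset.mem_Icc] at h
  obtain ⟨⟨h1, -⟩, h2, h3⟩ := h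
  have h4 : m % d = a := by
    have h5 : m % d = a % d := h2
    rw [h5, Nat.mod_eq_of_lt ha]
  exact ⟨h1, h4, h4 ▸ Nat.mod_le m d, h3⟩

theorem t_DISD (h1 : s_DIS) (h2 : s_SU) (h3 : s_DT) (h4 : s_EXP) (h5 : s_CC) : s_DISD := by
  intro z hz Ω _ μ _ ℱ S hS c η hc hη
  obtain ⟨p0, hp0, hp0', hexp⟩ := h4 η hη
  have hη1 : 0 < 1 + η := by linarith
  have hDT := h3 z hz (p0 / (1 + η)) (div_pos hp0 hη1)
  rw [eventually_atTop] at hDT
  obtain ⟨m0, hm0⟩ := hDT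
  filter_upwards [h2 z hz c η hc hη, eventually_ge_atTop (2 * m0), eventually_ge_atTop 2]
    with d hSU hd hd2
  intro N hN
  classical
  obtain ⟨I, hI⟩ : ∃ I : Finset ℕ,
      I = (Finset.range d).filter (fun a => Nat.Coprime a d ∧ d ≤ 2 * a) := ⟨_, rfl⟩
  have memI : ∀ a, a ∈ I ↔ a < d ∧ Nat.Coprime a d ∧ d ≤ 2 * a := by
    intro a
    rw [hI, Finset.mem_filter, Finset.mem_range]
  obtain ⟨p, hp⟩ : ∃ p : ℕ → ℝ, p = fun m => (1 + η) * (W (z m) / Real.log m) := ⟨_, rfl⟩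
  -- the numbers `p m`
  have hpm : ∀ a ∈ I, ∀ m ∈ T z d a 1 (X c d), 1 ≤ m ∧ N ≤ m ∧ 0 ≤ p m ∧ p m ≤ p0 := by
    intro a ha m hm
    obtain ⟨e1, e2, e3⟩ := (memI a).1 ha
    obtain ⟨f1, f2, f3, f4⟩ := DISD_mem e1 hm
    have g := hm0 m (by omega)
    refine ⟨f1, by omega, ?_, ?_⟩
    · rw [hp]
      exact mul_nonneg hη1.le g.1
    · rw [hp]
      have := mul_le_mul_of_nonneg_left g.2 hη1.le
      rwa [mul_div_cancel₀ _ hη1.ne'] at this
  have hdis : ∀ i ∈ I, ∀ j ∈ I, i ≠ j → Disjoint (T z d i 1 (X c d)) (T z d j 1 (X c d)) := by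
    intro i hi j hj hij
    rw [Finset.disjoint_left]
    intro m hmi hmj
    exact hij ((DISD_mem ((memI i).1 hi).1 hmi).2.1.symm.trans (DISD_mem ((memI j).1 hj).1 hmj).2.1)
  have key := h1 Ω μ ℱ S hS I (fun a => T z d a 1 (X c d)) p hdis (fun i hi m hm =>
    ⟨(hpm i hi m hm).1, (hpm i hi m hm).2.2.1, (hpm i hi m hm).2.2.2.trans (by linarith)⟩)
  have hsub : {ω | (∀ a : ℕ, a < d → d ≤ 2 * a → Nat.Coprime a d →
        ∃ m ∈ T z d a 1 (X c d), ω ∈ S m) ∧ ω ∈ Up μ ℱ S z η N} ⊆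
      {ω | (∀ i ∈ I, ∃ m ∈ T z d i 1 (X c d), ω ∈ S m) ∧
        ∀ i ∈ I, ∀ m ∈ T z d i 1 (X c d), cp μ ℱ S m ω ≤ p m} := by
    rintro ω ⟨g1, g2⟩
    refine ⟨fun i hi => ?_, fun i hi m hm => ?_⟩
    · obtain ⟨e1, e2, e3⟩ := (memI i).1 hi
      exact g1 i e1 e3 e2
    · rw [hp]
      exact g2 m (hpm i hi m hm).2.1 (DISD_mem ((memI i).1 hi).1 hm).2.2.2
  refine (measureReal_mono hsub (measure_ne_top _ _)).trans (key.trans ?_)
  -- lower bound for the products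
  have hd0 : (0 : ℝ) < d := by
    have : 0 < d := by omega
    exact_mod_cast this
  have hQ : ∀ a ∈ I, (d : ℝ) ^ (-((1 + η) ^ 3 * c)) ≤ ∏ m ∈ T z d a 1 (X c d), (1 - p m) := by
    intro a ha
    obtain ⟨e1, e2, e3⟩ := (memI a).1 ha
    have s1 := hSU a e1 e3 e2
    have s2 : Real.exp (-((1 + η) * ∑ m ∈ T z d a 1 (X c d), p m)) ≤
        ∏ m ∈ T z d a 1 (X c d), (1 - p m) := by
      rw [Finset.mul_sum, ← Finset.sum_neg_distrib, Real.exp_sum]
      refine Finset.prod_le_prod (fun m _ => (Real.exp_pos _).le) fun m hm => ?_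
      exact hexp _ (hpm a ha m hm).2.2.1 (hpm a ha m hm).2.2.2
    refine le_trans ?_ s2
    rw [Real.rpow_def_of_pos hd0, Real.exp_le_exp]
    have s3 : ∑ m ∈ T z d a 1 (X c d), p m =
        (1 + η) * ∑ m ∈ T z d a 1 (X c d), W (z m) / Real.log m := by
      rw [hp, Finset.mul_sum]
    rw [s3]
    have s4 := mul_le_mul_of_nonneg_left s1 (mul_nonneg hη1.le hη1.le)
    have s5 : (1 + η) * (1 + η) * ((1 + η) * c * Real.log d) = Real.log d * ((1 + η) ^ 3 * c) := by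
      ring
    rw [s5] at s4
    linarith
  have hQ1 : ∀ a ∈ I, ∏ m ∈ T z d a 1 (X c d), (1 - p m) ≤ 1 := by
    intro a ha
    refine Finset.prod_le_one (fun m hm => ?_) fun m hm => ?_
    · have := (hpm a ha m hm).2.2.2
      linarith
    · have := (hpm a ha m hm).2.2.1
      linarith
  have hprod : ∏ a ∈ I, (1 - ∏ m ∈ T z d a 1 (X c d), (1 - p m)) ≤
      ∏ _a ∈ I, Real.exp (-((d : ℝ) ^ (-((1 + η) ^ 3 * c)))) := by
    refine Finset.prod_le_prod (fun a ha => ?_) fun a ha => ?_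
    · linarith [hQ1 a ha]
    · have h6 := Real.one_sub_le_exp_neg ((d : ℝ) ^ (-((1 + η) ^ 3 * c)))
      linarith [hQ a ha]
  refine hprod.trans ?_
  rw [Finset.prod_const, ← Real.exp_nat_mul, Real.exp_le_exp]
  have hcc := h5 d hd2
  rw [← hI] at hcc
  have hcc' : (Nat.totient d : ℝ) ≤ 2 * (I.card : ℝ) := by exact_mod_cast hcc
  have hx : 0 ≤ (d : ℝ) ^ (-((1 + η) ^ 3 * c)) := Real.rpow_nonneg hd0.le _
  nlinarith

end Pool.Agent.J6H40.WG2
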