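import Pool.Agent.J6H40.WG2.Stm

/-!
# DT: the density tends to zero
-/

set_option autoImplicit false

open MeasureTheory Filter
open scoped Topology

namespace Pool.Agent.J6H40.WG2

theorem t_DT (h1 : s_WB) : s_DT := by
  intro z hz δ hδ
  have hlog : Tendsto (fun m : ℕ => Real.log (m : ℝ)) atTop atTop :=
    Real.tendsto_log_atTop.comp tendsto_natCast_atTop_atTop
  have h2 : ∀ᶠ L : ℝ in atTop, L ^ (1 / 2 : ℝ) + 1 ≤ δ * L := by
    have h3 : Tendsto (fun L : ℝ => L ^ (1 / 2 : ℝ)) atTop atTop := tendsto_rpow_atTop (by norm_num)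
    filter_upwards [h3.eventually_ge_atTop (2 / δ), h3.eventually_ge_atTop 1, eventually_gt_atTop 0] with L h4 h5 h6
    have h7 : L ^ (1 / 2 : ℝ) * L ^ (1 / 2 : ℝ) = L := by
      rw [← Real.rpow_add h6]
      norm_num
    rw [div_le_iff₀ hδ] at h4
    calc L ^ (1 / 2 : ℝ) + 1 ≤ 2 * L ^ (1 / 2 : ℝ) := by linarith
      _ ≤ (L ^ (1 / 2 : ℝ) * δ) * L ^ (1 / 2 : ℝ) := by gcongr
      _ = δ * (L ^ (1 / 2 : ℝ) * L ^ (1 / 2 : ℝ)) := by ring
      _ = δ * L := by rw [h7]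
  filter_upwards [hz.2 (1 / 2) (by norm_num), hlog.eventually h2, hlog.eventually_gt_atTop 0] with m h3 h4 h5
  obtain ⟨h6, h7⟩ := h1.1 (z m)
  constructor
  · exact div_nonneg (by linarith) h5.le
  · rw [div_le_iff₀ h5]
    linarith

end Pool.Agent.J6H40.WG2
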