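import Pool.Agent.J6H40.WG2.Stm

set_option autoImplicit false

/-!
# Module GE of project WG: the bounds for the conditional probabilities hold from some point on
-/

open MeasureTheory Filter
open scoped Topology

namespace Pool.Agent.J6H40.WG2

theorem t_GE (h1 : s_WB) : s_GE := by
  intro Ω mΩ μ _ ℱ S z hM κ hκ
  filter_upwards [hM.density] with ω hω
  have h2 : ∀ᶠ n : ℕ in atTop ⊓ 𝓟 {n : ℕ | Rough z (n + 1)},
      (μ[(S (n + 1)).indicator (fun _ => (1 : ℝ)) | ℱ n]) ω * Real.log ((n + 1 : ℕ) : ℝ)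
        / W (z (n + 1)) ∈ Set.Ioo (1 - κ) (1 + κ) :=
    hω (Ioo_mem_nhds (by linarith) (by linarith))
  rw [eventually_inf_principal] at h2
  obtain ⟨N, hN⟩ := eventually_atTop.1 h2
  have key : ∀ m, N + 2 ≤ m → Rough z m →
      (1 - κ) * (W (z m) / Real.log m) ≤ cp μ ℱ S m ω ∧
        cp μ ℱ S m ω ≤ (1 + κ) * (W (z m) / Real.log m) := by
    intro m hm hr
    obtain ⟨n, rfl⟩ : ∃ n, m = n + 1 := ⟨m - 1, by omega⟩
    have h3 := hN n (by omega) hr
    have hW : 0 < W (z (n + 1)) := lt_of_lt_of_le one_pos (h1.1 _).1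
    have hlog : 0 < Real.log ((n + 1 : ℕ) : ℝ) :=
      Real.log_pos (by exact_mod_cast (by omega : 1 < n + 1))
    have hcp : cp μ ℱ S (n + 1) ω =
        (μ[(S (n + 1)).indicator (fun _ => (1 : ℝ)) | ℱ n]) ω := rfl
    rw [hcp]
    generalize (μ[(S (n + 1)).indicator (fun _ => (1 : ℝ)) | ℱ n]) ω = c at h3 ⊢
    obtain ⟨h4, h5⟩ := h3
    constructor
    · rw [lt_div_iff₀ hW] at h4
      rw [← mul_div_assoc, div_le_iff₀ hlog]
      exact h4.le
    · rw [div_lt_iff₀ hW] at h5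
      rw [← mul_div_assoc, le_div_iff₀ hlog]
      exact h5.le
  exact ⟨N + 2, fun m hm hr => (key m hm hr).1, fun m hm hr => (key m hm hr).2⟩

end Pool.Agent.J6H40.WG2
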