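import Pool.Agent.J6H40.WG2.Stm

set_option autoImplicit false

/-!
# Project WG, module P2 (helper48): Borel–Cantelli for the upper bound
-/

open MeasureTheory Filter
open scoped Topology

namespace Pool.Agent.J6H40.WG2

theorem t_P2 (h1 : s_UPD) (h2 : s_GE) : s_P2 := by
  classical
  intro z hz c hc
  obtain ⟨κ, hκ⟩ : ∃ κ : ℝ, κ = (c - 2) / (4 * c) := ⟨_, rfl⟩
  have hc0 : 0 < c := by linarith
  have hκ0 : 0 < κ := by
    rw [hκ]
    apply div_pos <;> linarith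
  have hκc : κ * c = (c - 2) / 4 := by
    rw [hκ]
    field_simp
  have hκ1 : κ < 1 / 2 := by
    rw [hκ, div_lt_iff₀ (by linarith)]
    linarith
  obtain ⟨e, he⟩ : ∃ e : ℝ, e = (1 - κ) * (1 - 2 * κ) * c := ⟨_, rfl⟩
  have he2 : 2 < e := by
    have h3 : (1 - κ) * (1 - 2 * κ) * c = c - 3 * (κ * c) + 2 * (κ * κ * c) := by ring
    have h4 : 0 < κ * κ * c := by positivity
    rw [he, h3, hκc]
    linarith
  refine ⟨κ, hκ0, ?_⟩
  intro Ω mΩ μ hμ ℱ S hM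
  have hU := h1 z hz Ω μ ℱ S hM.adapted c κ hc0 hκ0 hκ1
  obtain ⟨d1, hd1⟩ := eventually_atTop.1 hU
  obtain ⟨G, hG⟩ : ∃ G : ℕ → ℕ → ℕ → Set Ω, ∀ N d a ω, ω ∈ G N d a ↔
      ((d1 ≤ d ∧ N ≤ d ∧ Few z κ d ∧ Nat.Coprime a d) ∧ (∀ m ∈ T z d a d (X c d), ω ∉ S m) ∧
        ω ∈ Lo μ ℱ S z κ N) := ⟨fun N d a => {ω | (d1 ≤ d ∧ N ≤ d ∧ Few z κ d ∧ Nat.Coprime a d) ∧
        (∀ m ∈ T z d a d (X c d), ω ∉ S m) ∧ ω ∈ Lo μ ℱ S z κ N}, fun _ _ _ _ => Iff.rfl⟩
  have key : ∀ N : ℕ, ∀ᵐ ω ∂μ, ∀ᶠ d : ℕ in atTop, ω ∉ ⋃ a ∈ Finset.range d, G N d a := by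
    intro N
    apply ae_eventually_notMem
    have hb : ∀ d : ℕ, μ (⋃ a ∈ Finset.range d, G N d a) ≤
        ENNReal.ofReal ((d : ℝ) * (d : ℝ) ^ (-e)) := by
      intro d
      refine (measure_biUnion_finset_le _ _).trans ?_
      have h3 : ∀ a ∈ Finset.range d, μ (G N d a) ≤ ENNReal.ofReal ((d : ℝ) ^ (-e)) := by
        intro a ha
        by_cases hcnd : d1 ≤ d ∧ N ≤ d ∧ Few z κ d ∧ Nat.Coprime a d
        · have h4 := hd1 d hcnd.1 hcnd.2.2.1 a (Finset.mem_range.1 ha) hcnd.2.2.2 N hcnd.2.1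
          rw [← he] at h4
          have hsub : G N d a ⊆ {ω | (∀ m ∈ T z d a d (X c d), ω ∉ S m) ∧ ω ∈ Lo μ ℱ S z κ N} :=
            fun ω h => ((hG N d a ω).1 h).2
          refine (measure_mono hsub).trans ?_
          rw [← ofReal_measureReal (measure_ne_top _ _)]
          exact ENNReal.ofReal_le_ofReal h4
        · have h5 : G N d a = ∅ :=
            Set.eq_empty_of_forall_notMem (fun ω h => hcnd ((hG N d a ω).1 h).1)
          rw [h5, measure_empty]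
          exact bot_le
      refine (Finset.sum_le_sum h3).trans ?_
      rw [Finset.sum_const, Finset.card_range, nsmul_eq_mul, ENNReal.ofReal_mul (Nat.cast_nonneg _),
        ENNReal.ofReal_natCast]
    refine ne_top_of_le_ne_top (Summable.tsum_ofReal_ne_top ?_) (ENNReal.tsum_le_tsum hb)
    have hs : Summable (fun d : ℕ => (d : ℝ) ^ (1 - e)) := Real.summable_nat_rpow.2 (by linarith)
    refine hs.congr (fun d => ?_)
    rcases Nat.eq_zero_or_pos d with h | h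
    · subst h
      rw [Nat.cast_zero, zero_mul, Real.zero_rpow (by linarith)]
    · have hd : (0 : ℝ) < d := by exact_mod_cast h
      rw [sub_eq_add_neg, Real.rpow_add hd, Real.rpow_one]
  filter_upwards [ae_all_iff.2 key, h2 Ω μ ℱ S z hM κ hκ0] with ω hω hGE
  obtain ⟨N, hN, -⟩ := hGE
  obtain ⟨d0, hd0⟩ := eventually_atTop.1 (hω N)
  refine ⟨max d0 (max d1 N), fun d hd hFew a ha hcop => ?_⟩
  have hd0' : d0 ≤ d := (le_max_left _ _).trans hd
  have hd1' : d1 ≤ d := ((le_max_left _ _).trans (le_max_right _ _)).trans hd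
  have hdN : N ≤ d := ((le_max_right _ _).trans (le_max_right _ _)).trans hd
  by_contra hcon
  refine hd0 d hd0' ?_
  simp only [Set.mem_iUnion]
  refine ⟨a, Finset.mem_range.2 ha, (hG N d a ω).2 ⟨⟨hd1', hdN, hFew, hcop⟩, ?_, hN⟩⟩
  intro m hm hS
  unfold T at hm
  rw [Finset.mem_filter, Finset.mem_Icc] at hm
  refine hcon ⟨m, hm.2.1, ?_, hS⟩
  have h6 : (0 : ℝ) ≤ c * (Nat.totient d : ℝ) * Real.log d ^ 2 := by positivity
  have h7 := Nat.floor_le h6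
  have h8 : (m : ℝ) ≤ ((X c d : ℕ) : ℝ) := by exact_mod_cast hm.1.2
  exact h8.trans h7

end Pool.Agent.J6H40.WG2
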