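import Pool.Agent.J6H40.WG2.Stm

set_option autoImplicit false

/-!
# Project WG: module P3
-/

open MeasureTheory Filter
open scoped Topology

namespace Pool.Agent.J6H40.WG2

theorem P3_lim (η s : ℝ) (hs : s < 2) :
    Tendsto (fun D : ℕ => η + 4 * (D : ℝ) ^ s / (D : ℝ) ^ 2) atTop (𝓝 η) := by
  have h1 : Tendsto (fun x : ℝ => x ^ (-(2 - s))) atTop (𝓝 0) :=
    tendsto_rpow_neg_atTop (by linarith)
  have h2 : Tendsto (fun D : ℕ => (D : ℝ) ^ (-(2 - s))) atTop (𝓝 0) :=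
    h1.comp tendsto_natCast_atTop_atTop
  have h3 : Tendsto (fun D : ℕ => η + 4 * (D : ℝ) ^ (-(2 - s))) atTop (𝓝 (η + 4 * 0)) :=
    (h2.const_mul 4).const_add η
  rw [mul_zero, add_zero] at h3
  refine h3.congr' ?_
  filter_upwards [eventually_ge_atTop 1] with D hD
  have hD0 : (0 : ℝ) < D := by exact_mod_cast hD
  have : (D : ℝ) ^ (-(2 - s)) = (D : ℝ) ^ s / (D : ℝ) ^ 2 := by
    rw [show -(2 - s) = s - (2 : ℕ) by push_cast; ring, Real.rpow_sub_natCast hD0.ne']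
  rw [this]; ring

theorem P3_pick (c ε : ℝ) (hc2 : c < 2) (hε : 0 < ε) :
    ∃ η : ℝ, 0 < η ∧ η < 1 / 2 ∧ η < ε ∧ (1 + η) * (1 + η) ^ 3 * c < 2 := by
  have h1 : Tendsto (fun x : ℝ => (1 + x) * (1 + x) ^ 3 * c) (𝓝 0) (𝓝 ((1 + 0) * (1 + 0) ^ 3 * c)) :=
    Continuous.tendsto (by fun_prop) 0
  have h2 : ∀ᶠ x : ℝ in 𝓝 0, (1 + x) * (1 + x) ^ 3 * c < 2 :=
    h1.eventually (gt_mem_nhds (by linarith))
  have h3 : ∀ᶠ x : ℝ in 𝓝 0, x < 1 / 2 := gt_mem_nhds (by norm_num)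
  have h4 : ∀ᶠ x : ℝ in 𝓝 0, x < ε := gt_mem_nhds hε
  have h5 : ∀ᶠ x : ℝ in 𝓝[>] 0, (1 + x) * (1 + x) ^ 3 * c < 2 ∧ x < 1 / 2 ∧ x < ε :=
    (h2.and (h3.and h4)).filter_mono nhdsWithin_le_nhds
  obtain ⟨x, ⟨hx1, hx2, hx3⟩, hx0⟩ := (h5.and self_mem_nhdsWithin).exists
  exact ⟨x, hx0, hx2, hx3, hx1⟩

theorem t_P3 (h1 : s_SECD) (h2 : s_GE) : s_P3 := by
  classical
  intro z hz Ω mΩ μ hμ ℱ S hM c hc hc2
  rw [ae_all_iff]
  intro d0
  obtain ⟨E, hEdef⟩ : ∃ E : Set Ω, E = {ω | ∀ d : ℕ, d0 ≤ d → d.Prime → ∀ a : ℕ, a < d →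
      Nat.Coprime a d → ∃ n : ℕ, n ≡ a [MOD d] ∧
        (n : ℝ) ≤ c * (Nat.totient d : ℝ) * Real.log d ^ 2 ∧ ω ∈ S n} := ⟨_, rfl⟩
  have key : ∀ ε : ℝ, 0 < ε → μ.real E ≤ ε := by
    intro ε hε
    obtain ⟨η, hη0, hη1, hηε, hηc⟩ := P3_pick c ε hc2 hε
    have hN : ∀ N : ℕ, μ.real (E ∩ Up μ ℱ S z η N) ≤ η := by
      intro N
      have hS := h1 z hz Ω μ ℱ S hM.adapted c η η hc hη0 hη0 hη1 N
      refine ge_of_tendsto (P3_lim η ((1 + η) * (1 + η) ^ 3 * c) hηc) ?_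
      filter_upwards [hS, eventually_ge_atTop d0] with D hD hDd
      refine le_trans (measureReal_mono ?_) hD
      rintro ω ⟨hωE, hωU⟩
      refine ⟨?_, hωU⟩
      intro d hd hDlt _ a ha hda hcop
      rw [hEdef] at hωE
      obtain ⟨n, hn1, hn2, hn3⟩ := hωE d (by omega) hd a ha hcop
      refine ⟨n, ?_, hn3⟩
      simp only [T, Finset.mem_filter, Finset.mem_Icc]
      refine ⟨⟨?_, Nat.le_floor hn2⟩, hn1, ?_⟩
      · by_contra h0
        have hn0 : n = 0 := by omega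
        subst hn0
        have h3 : a % d = 0 := by
          have := hn1.symm
          unfold Nat.ModEq at this
          rw [this]; exact Nat.zero_mod d
        rw [Nat.mod_eq_of_lt ha] at h3
        have := hd.pos
        omega
      · by_contra hR
        rw [hM.sieved n hR] at hn3
        exact hn3
    have hmono : Monotone fun N : ℕ => E ∩ Up μ ℱ S z η N := by
      intro N N' hNN ω hω
      exact ⟨hω.1, fun m hm hr => hω.2 m (hNN.trans hm) hr⟩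
    have hle : μ E ≤ μ (⋃ N : ℕ, E ∩ Up μ ℱ S z η N) := by
      refine measure_mono_ae ?_
      filter_upwards [h2 Ω μ ℱ S z hM η hη0] with ω hω hωE
      obtain ⟨N, _, hNU⟩ := hω
      exact Set.mem_iUnion.2 ⟨N, hωE, hNU⟩
    rw [hmono.measure_iUnion] at hle
    have hsup : (⨆ N : ℕ, μ (E ∩ Up μ ℱ S z η N)) ≤ ENNReal.ofReal η := by
      refine iSup_le fun N => ?_
      rw [← ofReal_measureReal]
      exact ENNReal.ofReal_le_ofReal (hN N)
    have h3 : μ.real E ≤ η := by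
      have := ENNReal.toReal_mono ENNReal.ofReal_ne_top (hle.trans hsup)
      rwa [ENNReal.toReal_ofReal hη0.le] at this
    linarith
  have hE0 : μ E = 0 := by
    have h3 : μ.real E = 0 := by
      refine le_antisymm ?_ measureReal_nonneg
      exact le_of_forall_pos_le_add fun ε hε => by rw [zero_add]; exact key ε hε
    rwa [measureReal_eq_zero_iff] at h3
  rw [ae_iff]
  refine measure_mono_null ?_ hE0
  intro ω hω
  rw [hEdef]
  intro d hd hp a ha hcop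
  by_contra hcon
  push Not at hcon
  exact hω ⟨d, hd, hp, a, ha, hcop, fun n hn1 hn2 => hcon n hn1 hn2⟩

end Pool.Agent.J6H40.WG2
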