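import Pool.Agent.J6H40.WG2.Stm

set_option autoImplicit false

/-!
# Project WG, module PR: many primes between `D` and `D ^ (1 + κ)`
-/

open MeasureTheory Filter
open scoped Topology

namespace Pool.Agent.J6H40.WG2

/-- the analytic comparison behind `t_PR` -/
theorem pr_aux (s : ℝ) (hs0 : 0 < s) (hs1 : s < 1) : ∀ᶠ x : ℝ in atTop,
    (2 * x ^ s + 1) * Real.log x ≤ (x - 1) * Real.log 2 - Real.log (x + 2) := by
  have h1 : ∀ᶠ x : ℝ in atTop, ‖Real.log x‖ ≤ (1 / 16 : ℝ) * ‖x ^ (1 - s)‖ :=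
    (isLittleO_log_rpow_atTop (by linarith : (0 : ℝ) < 1 - s)).bound (by norm_num)
  have h2 : ∀ᶠ x : ℝ in atTop, ‖Real.log x‖ ≤ (1 / 16 : ℝ) * ‖x‖ := by
    have := Real.isLittleO_log_id_atTop.bound (show (0 : ℝ) < 1 / 16 by norm_num)
    simpa using this
  have h3 : ∀ᶠ x : ℝ in atTop, ‖Real.log (x + 2)‖ ≤ (1 / 16 : ℝ) * ‖x + 2‖ :=
    (tendsto_atTop_add_const_right atTop (2 : ℝ) tendsto_id).eventually h2
  filter_upwards [h1, h3, eventually_ge_atTop (10 : ℝ)] with x hx1 hx3 hx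
  have hx0 : 0 < x := by linarith
  have hlog : 0 ≤ Real.log x := Real.log_nonneg (by linarith)
  have hlog2 : 0 ≤ Real.log (x + 2) := Real.log_nonneg (by linarith)
  rw [Real.norm_of_nonneg hlog, Real.norm_of_nonneg (Real.rpow_nonneg hx0.le _)] at hx1
  rw [Real.norm_of_nonneg hlog2, Real.norm_of_nonneg (by linarith)] at hx3
  have hone : 1 ≤ x ^ s := Real.one_le_rpow (by linarith) hs0.le
  have hmul : x ^ s * x ^ (1 - s) = x := by
    rw [← Real.rpow_add hx0]
    simp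
  have hA : (2 * x ^ s + 1) * Real.log x ≤ 3 * x ^ s * ((1 / 16 : ℝ) * x ^ (1 - s)) := by
    apply mul_le_mul (by linarith) hx1 hlog (by positivity)
  have hB : 3 * x ^ s * ((1 / 16 : ℝ) * x ^ (1 - s)) = 3 / 16 * x := by
    calc 3 * x ^ s * ((1 / 16 : ℝ) * x ^ (1 - s)) = 3 / 16 * (x ^ s * x ^ (1 - s)) := by ring
      _ = 3 / 16 * x := by rw [hmul]
  have hl2 : (0.6931471803 : ℝ) < Real.log 2 := Real.log_two_gt_d9
  have hC : (x - 1) * 0.69 ≤ (x - 1) * Real.log 2 := by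
    apply mul_le_mul_of_nonneg_left (by linarith) (by linarith)
  rw [hB] at hA
  nlinarith [hA, hC, hx3, hx]

theorem t_PR : s_PR := by
  intro κ hκ
  have hs0 : (0 : ℝ) < 1 / (1 + κ) := by positivity
  have hs1 : 1 / (1 + κ) < 1 := by
    rw [div_lt_one (by linarith)]
    linarith
  have ht : Tendsto (fun D : ℕ => (D : ℝ) ^ (1 + κ)) atTop atTop :=
    (tendsto_rpow_atTop (by linarith)).comp tendsto_natCast_atTop_atTop
  filter_upwards [ht.eventually (pr_aux _ hs0 hs1), ht.eventually (eventually_gt_atTop (1 : ℝ)),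
    eventually_ge_atTop 1] with D hD hy1 hD1
  set y : ℝ := (D : ℝ) ^ (1 + κ) with hy
  have hDr : (0 : ℝ) ≤ (D : ℝ) := Nat.cast_nonneg D
  have hroot : y ^ (1 / (1 + κ)) = (D : ℝ) := by
    rw [hy, ← Real.rpow_mul hDr]
    rw [mul_one_div_cancel (by linarith), Real.rpow_one]
  rw [hroot] at hD
  have hlogy : 0 < Real.log y := Real.log_pos hy1
  have hpi := Chebyshev.pi_ge' hy1
  have hpi2 : (2 * (D : ℝ) + 1) ≤ (Nat.primeCounting ⌊y⌋₊ : ℝ) := by
    refine le_trans ?_ hpi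
    rw [le_div_iff₀ hlogy]
    exact hD
  have hpi3 : 2 * D + 1 ≤ Nat.primeCounting ⌊y⌋₊ := by exact_mod_cast hpi2
  have hcount : Nat.primeCounting ⌊y⌋₊ = ((Finset.range (⌊y⌋₊ + 1)).filter Nat.Prime).card := by
    rw [Nat.primeCounting, Nat.primeCounting', Nat.count_eq_card_filter_range]
  have hsub : (Finset.range (⌊y⌋₊ + 1)).filter Nat.Prime ⊆
      Finset.range (D + 1) ∪ (Finset.Ioc D ⌊y⌋₊).filter Nat.Prime := by
    intro p hp
    rw [Finset.mem_filter, Finset.mem_range] at hp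
    rw [Finset.mem_union, Finset.mem_range, Finset.mem_filter, Finset.mem_Ioc]
    by_cases h : p < D + 1
    · exact Or.inl h
    · exact Or.inr ⟨⟨by omega, by omega⟩, hp.2⟩
  have hcard := (Finset.card_le_card hsub).trans (Finset.card_union_le _ _)
  rw [← hcount, Finset.card_range] at hcard
  omega

end Pool.Agent.J6H40.WG2
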