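import Pool.Agent.J6H40.WG2.Stm

set_option autoImplicit false

/-!
# Project WG2: the lower bound for the density sum (module SL)
-/

open MeasureTheory Filter
open scoped Topology

namespace Pool.Agent.J6H40.WG2

theorem SL_asym (c κ : ℝ) (hc : 0 < c) (hκ : 0 < κ) (E : ℕ → ℝ)
    (hE : Tendsto (fun d : ℕ => E d / Real.log d) atTop (𝓝 0)) :
    ∀ᶠ d : ℕ in atTop,
      (1 - 2 * κ) * c * Real.log d * (Real.log d + 2 * Real.log (Real.log d) + Real.log c) ≤
        (1 - κ / 2) * (1 - κ) * (c * Real.log d ^ 2 - 3 * (Real.log d / Real.log 2 + 1)) - E d := by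
  have hL : Tendsto (fun d : ℕ => Real.log (d : ℝ)) atTop atTop :=
    Real.tendsto_log_atTop.comp tendsto_natCast_atTop_atTop
  have hinv : Tendsto (fun d : ℕ => (Real.log (d : ℝ))⁻¹) atTop (𝓝 0) :=
    tendsto_inv_atTop_zero.comp hL
  have hll : Tendsto (fun d : ℕ => Real.log (Real.log (d : ℝ)) / Real.log (d : ℝ)) atTop (𝓝 0) :=
    (Real.isLittleO_log_id_atTop.tendsto_div_nhds_zero).comp hL
  have hA : Tendsto (fun d : ℕ => (1 - κ / 2) * (1 - κ) * (c - 3 * ((Real.log (d : ℝ))⁻¹ * (Real.log 2)⁻¹ +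
      (Real.log (d : ℝ))⁻¹ * (Real.log (d : ℝ))⁻¹)) - E d / Real.log d * (Real.log (d : ℝ))⁻¹)
      atTop (𝓝 ((1 - κ / 2) * (1 - κ) * (c - 3 * (0 * (Real.log 2)⁻¹ + 0 * 0)) - 0 * 0)) :=
    ((((hinv.mul_const _).add (hinv.mul hinv)).const_mul 3).const_sub c |>.const_mul ((1 - κ / 2) * (1 - κ))).sub
      (hE.mul hinv)
  have hB : Tendsto (fun d : ℕ => (1 - 2 * κ) * c * (1 + 2 * (Real.log (Real.log (d : ℝ)) /
      Real.log (d : ℝ)) + Real.log c * (Real.log (d : ℝ))⁻¹)) atTop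
      (𝓝 ((1 - 2 * κ) * c * (1 + 2 * 0 + Real.log c * 0))) :=
    (((hll.const_mul 2).const_add 1).add (hinv.const_mul (Real.log c))).const_mul _
  have hlt : (1 - 2 * κ) * c * (1 + 2 * 0 + Real.log c * 0) <
      (1 - κ / 2) * (1 - κ) * (c - 3 * (0 * (Real.log 2)⁻¹ + 0 * 0)) - 0 * 0 := by
    nlinarith [mul_pos hc hκ, mul_nonneg hc.le (sq_nonneg κ)]
  filter_upwards [hB.eventually_lt hA hlt, hL.eventually_gt_atTop 0] with d h hL0
  set L := Real.log (d : ℝ) with hLd
  have h2 := mul_le_mul_of_nonneg_right h.le (sq_nonneg L)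
  have e1 : (1 - 2 * κ) * c * (1 + 2 * (Real.log L / L) + Real.log c * L⁻¹) * L ^ 2 =
      (1 - 2 * κ) * c * L * (L + 2 * Real.log L + Real.log c) := by
    field_simp
  have e2 : ((1 - κ / 2) * (1 - κ) * (c - 3 * (L⁻¹ * (Real.log 2)⁻¹ + L⁻¹ * L⁻¹)) - E d / L * L⁻¹) * L ^ 2 =
      (1 - κ / 2) * (1 - κ) * (c * L ^ 2 - 3 * (L / Real.log 2 + 1)) - E d := by
    have h22 : Real.log 2 ≠ 0 := (Real.log_pos one_lt_two).ne'
    field_simp
  rw [e1, e2] at h2
  exact h2

open Classical in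
theorem t_SL (h1 : s_BLK) (h2 : s_AS) (h3 : s_WB) (h4 : s_WD) : s_SL := by
  intro z hz c κ hc hκ hκ2
  obtain ⟨s, h1⟩ := h1 (κ / 2) (by linarith)
  have hA := SL_asym c κ hc hκ _ (h2 z hz c hc s)
  have hLt : Tendsto (fun d : ℕ => Real.log (d : ℝ)) atTop atTop :=
    Real.tendsto_log_atTop.comp tendsto_natCast_atTop_atTop
  filter_upwards [hA, hLt.eventually_gt_atTop 1, hLt.eventually_gt_atTop (-Real.log c),
    eventually_ge_atTop 2] with d hA hL1 hLc hd hF a ha hco
  set L := Real.log (d : ℝ) with hLd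
  have hL0 : 0 < L := by linarith
  have hlogL : 0 ≤ Real.log L := Real.log_nonneg hL1.le
  set Y := L + 2 * Real.log L + Real.log c with hYd
  have hY : 0 < Y := by linarith
  have hd0 : (0 : ℝ) < d := by positivity
  set x := X c d with hx
  set V := z (x + d) with hV
  set q := (x - a) / d with hq
  -- arithmetic of `q`
  have hdq : d * q ≤ x - a := Nat.mul_div_le _ _
  have hxq : x ≤ d * q + 2 * d := by
    have := Nat.lt_mul_div_succ (x - a) (show 0 < d by omega)
    rw [← hq, mul_add, mul_one] at this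
    omega
  have hjx : ∀ j, 1 ≤ j → j ≤ q → a + j * d ≤ x := by
    intro j hj1 hjq
    have e1 : d * j ≤ d * q := Nat.mul_le_mul_left _ hjq
    have e2 : d * 1 ≤ d * j := Nat.mul_le_mul_left _ hj1
    rw [mul_comm j d]
    omega
  -- the numbers `R j`
  set R : ℕ → ℝ := fun j => if Rough z (a + j * d) then W (z (a + j * d)) else 0 with hR
  have hblk := h1 z hz.1 d a V 1 (q + 1) (by omega) hco (Nat.le_add_left 1 q)
    (fun j hj => hz.1 (by
      rcases Nat.eq_zero_or_pos j with h0 | h0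
      · subst h0; omega
      · have := hjx j h0 (by omega); omega)) R
    (fun j hj => by simp [hR, hj]) (fun j hj => by simp [hR, hj])
  have hW : ∀ v, 0 < W v := fun v => lt_of_lt_of_le one_pos (h3.1 v).1
  -- WD
  have hphi : (0 : ℝ) < Nat.totient d := by exact_mod_cast Nat.totient_pos.2 (by omega)
  have hdp : 0 ≤ (d : ℝ) / (Nat.totient d : ℝ) := by positivity
  have hterm : ∀ j ∈ Finset.Ico 1 (q + 1),
      (1 - κ) * ((d : ℝ) / (Nat.totient d : ℝ)) ≤ W (z (a + j * d)) * Dn d (z (a + j * d)) := by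
    intro j hj
    rw [Finset.mem_Ico] at hj
    refine le_trans ?_ (h4 d (z (a + j * d)) (by omega)).2
    refine mul_le_mul_of_nonneg_right ?_ hdp
    have hzz : z d ≤ z (a + j * d) := hz.1 (by nlinarith [hj.1, ha])
    have hsub : ∑ p ∈ d.primeFactors.filter (fun p => z (a + j * d) < p), (p : ℝ)⁻¹ ≤
        ∑ p ∈ d.primeFactors.filter (fun p => z d < p), (p : ℝ)⁻¹ :=
      Finset.sum_le_sum_of_subset_of_nonneg
        (fun p hp => by
          rw [Finset.mem_filter] at hp ⊢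
          exact ⟨hp.1, lt_of_le_of_lt hzz hp.2⟩)
        (fun p _ _ => by positivity)
    have hF' : ∑ p ∈ d.primeFactors.filter (fun p => z d < p), (p : ℝ)⁻¹ ≤ κ := hF
    linarith
  have hsum1 : (q : ℝ) * ((1 - κ) * ((d : ℝ) / (Nat.totient d : ℝ))) ≤
      ∑ j ∈ Finset.Ico 1 (q + 1), W (z (a + j * d)) * Dn d (z (a + j * d)) := by
    have := Finset.card_nsmul_le_sum _ _ _ hterm
    rwa [Nat.card_Ico, Nat.add_sub_cancel, nsmul_eq_mul] at this
  have hsumR : (1 - κ / 2) * ((q : ℝ) * ((1 - κ) * ((d : ℝ) / (Nat.totient d : ℝ)))) -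
      ((V : ℝ) + 2) ^ s ≤ ∑ j ∈ Finset.Ico 1 (q + 1), R j := by
    have := (abs_le.1 hblk).1
    have h5 := mul_le_mul_of_nonneg_left hsum1 (show 0 ≤ 1 - κ / 2 by linarith)
    linarith
  -- lower bound for `q d / φ(d)`
  have hxl : c * (Nat.totient d : ℝ) * L ^ 2 - 1 ≤ x := by
    have := (Nat.lt_floor_add_one (c * (Nat.totient d : ℝ) * L ^ 2)).le
    have e : (x : ℝ) = (⌊c * (Nat.totient d : ℝ) * L ^ 2⌋₊ : ℝ) := by rw [hx, hLd]; rfl
    rw [e]; linarith
  have hqd : c * L ^ 2 - 3 * ((d : ℝ) / (Nat.totient d : ℝ)) ≤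
      (q : ℝ) * ((d : ℝ) / (Nat.totient d : ℝ)) := by
    have e1 : (x : ℝ) ≤ d * q + 2 * d := by exact_mod_cast hxq
    have hd1 : (1 : ℝ) ≤ d := by exact_mod_cast (show 1 ≤ d by omega)
    have e2 : c * (Nat.totient d : ℝ) * L ^ 2 ≤ d * q + 3 * d := by linarith
    have e3 : c * L ^ 2 ≤ (d * q + 3 * d) / (Nat.totient d : ℝ) := by
      rw [le_div_iff₀ hphi]; linarith
    have e4 : ((d : ℝ) * q + 3 * d) / (Nat.totient d : ℝ) =
      (q : ℝ) * ((d : ℝ) / (Nat.totient d : ℝ)) + 3 * ((d : ℝ) / (Nat.totient d : ℝ)) := by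
      ring
    linarith
  have hdphi : (d : ℝ) / (Nat.totient d : ℝ) ≤ L / Real.log 2 + 1 := h3.2 d (by omega)
  have hlow : (1 - κ / 2) * (1 - κ) * (c * L ^ 2 - 3 * (L / Real.log 2 + 1)) ≤
      (1 - κ / 2) * ((q : ℝ) * ((1 - κ) * ((d : ℝ) / (Nat.totient d : ℝ)))) := by
    have : (1 - κ / 2) * (1 - κ) * (c * L ^ 2 - 3 * (L / Real.log 2 + 1)) ≤
        (1 - κ / 2) * (1 - κ) * ((q : ℝ) * ((d : ℝ) / (Nat.totient d : ℝ))) :=
      mul_le_mul_of_nonneg_left (by linarith) (mul_nonneg (by linarith) (by linarith))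
    calc (1 - κ / 2) * (1 - κ) * (c * L ^ 2 - 3 * (L / Real.log 2 + 1)) ≤
        (1 - κ / 2) * (1 - κ) * ((q : ℝ) * ((d : ℝ) / (Nat.totient d : ℝ))) := this
      _ = _ := by ring
  -- upper bound for the logarithms
  have hxu : (x : ℝ) ≤ c * (d : ℝ) * L ^ 2 := by
    have e : (x : ℝ) = (⌊c * (Nat.totient d : ℝ) * L ^ 2⌋₊ : ℝ) := by rw [hx, hLd]; rfl
    rw [e]
    refine (Nat.floor_le (by positivity)).trans ?_
    have : (Nat.totient d : ℝ) ≤ d := by exact_mod_cast Nat.totient_le d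
    gcongr
  have hlogx : ∀ m : ℕ, 1 ≤ m → m ≤ x → Real.log (m : ℝ) ≤ Y := by
    intro m hm1 hm
    have hm0 : (0 : ℝ) < m := by exact_mod_cast hm1
    have e1 : (m : ℝ) ≤ c * (d : ℝ) * L ^ 2 := le_trans (by exact_mod_cast hm) hxu
    have e2 := Real.log_le_log hm0 e1
    rw [Real.log_mul (by positivity) (by positivity), Real.log_mul hc.ne' hd0.ne',
      Real.log_pow] at e2
    push_cast at e2
    linarith
  -- comparison of the sums
  have hcomp : (∑ j ∈ Finset.Ico 1 (q + 1), R j) / Y ≤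
      ∑ m ∈ T z d a d x, W (z m) / Real.log m := by
    have e1 : (∑ j ∈ Finset.Ico 1 (q + 1), R j) / Y =
        ∑ j ∈ (Finset.Ico 1 (q + 1)).filter (fun j => Rough z (a + j * d)),
          W (z (a + j * d)) / Y := by
      rw [Finset.sum_filter, Finset.sum_div]
      refine Finset.sum_congr rfl fun j _ => ?_
      by_cases hj : Rough z (a + j * d) <;> simp [hR, hj]
    rw [e1]
    have e2 : ∑ j ∈ (Finset.Ico 1 (q + 1)).filter (fun j => Rough z (a + j * d)),
          W (z (a + j * d)) / Y ≤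
        ∑ j ∈ (Finset.Ico 1 (q + 1)).filter (fun j => Rough z (a + j * d)),
          W (z (a + j * d)) / Real.log ((a + j * d : ℕ) : ℝ) := by
      refine Finset.sum_le_sum fun j hj => ?_
      rw [Finset.mem_filter, Finset.mem_Ico] at hj
      have hm2 : 2 ≤ a + j * d := by nlinarith [hj.1.1, hd]
      have hlp : 0 < Real.log ((a + j * d : ℕ) : ℝ) :=
        Real.log_pos (by exact_mod_cast (show 1 < a + j * d by omega))
      exact div_le_div_of_nonneg_left (hW _).le hlp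
        (hlogx _ (by omega) (hjx j hj.1.1 (by omega)))
    refine e2.trans ?_
    have hinj : Set.InjOn (fun j => a + j * d)
        ((Finset.Ico 1 (q + 1)).filter (fun j => Rough z (a + j * d)) : Set ℕ) := by
      intro i _ j _ hij
      have : i * d = j * d := by simpa using hij
      exact Nat.eq_of_mul_eq_mul_right (by omega) this
    rw [← Finset.sum_image (f := fun m : ℕ => W (z m) / Real.log (m : ℝ)) hinj]
    refine Finset.sum_le_sum_of_subset_of_nonneg ?_ ?_
    · intro m hm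
      rw [Finset.mem_image] at hm
      obtain ⟨j, hj, rfl⟩ := hm
      rw [Finset.mem_filter, Finset.mem_Ico] at hj
      unfold T
      rw [Finset.mem_filter, Finset.mem_Icc]
      refine ⟨⟨by nlinarith [hj.1.1], hjx j hj.1.1 (by omega)⟩, ?_, hj.2⟩
      show (a + j * d) % d = a % d
      rw [Nat.add_mul_mod_self_right]
    · intro m hm _
      unfold T at hm
      rw [Finset.mem_filter, Finset.mem_Icc] at hm
      exact div_nonneg (hW _).le (Real.log_natCast_nonneg m)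
  refine le_trans ?_ hcomp
  rw [le_div_iff₀ hY]
  refine le_trans hA ?_
  refine le_trans ?_ hsumR
  have : ((z (X c d + d) : ℝ) + 2) ^ s = ((V : ℝ) + 2) ^ s := rfl
  rw [this]
  linarith

end Pool.Agent.J6H40.WG2
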