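import Pool.Agent.J6H40.WG2.Stm

set_option autoImplicit false

/-!
# Project WG, module UP
-/

open MeasureTheory Filter
open scoped Topology

namespace Pool.Agent.J6H40.WG2

theorem t_UP (h1 : s_PULL) : s_UP := by
  intro Ω mΩ μ _ ℱ S hS T
  induction T using Finset.induction_on_max with
  | empty =>
    intro p _
    rw [Finset.prod_empty]
    exact measureReal_le_one
  | insert M T' hmax ih =>
    intro p hp
    have hMT : M ∉ T' := fun h => lt_irrefl _ (hmax M h)
    obtain ⟨hM1, hp0, hp1⟩ := hp M (Finset.mem_insert_self _ _)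
    have hle : ∀ m ∈ T', m ≤ M - 1 := fun m hm => by have := hmax m hm; omega
    have ih' := ih p fun m hm => hp m (Finset.mem_insert_of_mem hm)
    have hcpm : ∀ m, m ≤ M → MeasurableSet[ℱ (M - 1)] {ω | p m ≤ cp μ ℱ S m ω} := by
      intro m hm
      have h2 : StronglyMeasurable[ℱ (m - 1)] (cp μ ℱ S m) := stronglyMeasurable_condExp
      have h3 : Measurable[ℱ (M - 1)] (cp μ ℱ S m) :=
        h2.measurable.mono (ℱ.mono (by omega)) le_rfl
      exact h3 measurableSet_Ici
    set A : Set Ω := {ω | ((∀ m ∈ T', ω ∉ S m) ∧ ∀ m ∈ T', p m ≤ cp μ ℱ S m ω) ∧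
      p M ≤ cp μ ℱ S M ω} with hA
    have hAm : MeasurableSet[ℱ (M - 1)] A := by
      have e : A = ((⋂ m ∈ T', (S m)ᶜ) ∩ ⋂ m ∈ T', {ω | p m ≤ cp μ ℱ S m ω}) ∩
          {ω | p M ≤ cp μ ℱ S M ω} := by
        ext ω
        simp [hA]
      rw [e]
      refine MeasurableSet.inter (MeasurableSet.inter ?_ ?_) (hcpm M le_rfl)
      · refine Finset.measurableSet_biInter T' fun m hm => ?_
        exact (ℱ.mono (hle m hm) _ (hS m)).compl
      · exact Finset.measurableSet_biInter T' fun m hm => hcpm m (hmax m hm).le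
    have hAm' : MeasurableSet A := ℱ.le (M - 1) _ hAm
    have hSm' : MeasurableSet (S M) := ℱ.le M _ (hS M)
    set f : Ω → ℝ := A.indicator (fun _ => (1 : ℝ)) with hf
    have hfm : StronglyMeasurable[ℱ (M - 1)] f :=
      (@stronglyMeasurable_const _ _ (ℱ (M - 1)) _ (1 : ℝ)).indicator hAm
    have hfb : ∀ ω, |f ω| ≤ 1 := by
      intro ω
      rw [hf]
      by_cases h : ω ∈ A
      · rw [Set.indicator_of_mem h]; simp
      · rw [Set.indicator_of_notMem h]; simp
    have hpull := h1 Ω μ ℱ S hS M f 1 hfm hfb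
    have hsub : {ω | (∀ m ∈ insert M T', ω ∉ S m) ∧ ∀ m ∈ insert M T', p m ≤ cp μ ℱ S m ω} ⊆
        A \ S M := by
      intro ω hω
      refine ⟨⟨⟨fun m hm => hω.1 m (Finset.mem_insert_of_mem hm),
        fun m hm => hω.2 m (Finset.mem_insert_of_mem hm)⟩,
        hω.2 M (Finset.mem_insert_self _ _)⟩, hω.1 M (Finset.mem_insert_self _ _)⟩
    have hAreal : ∫ ω, f ω ∂μ = μ.real A := by
      rw [hf, integral_indicator_const _ hAm']
      simp
    have hASreal : ∫ ω, f ω * (S M).indicator (fun _ => (1 : ℝ)) ω ∂μ = μ.real (A ∩ S M) := by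
      have e : (fun ω => f ω * (S M).indicator (fun _ => (1 : ℝ)) ω) =
          (A ∩ S M).indicator (fun _ => (1 : ℝ)) := by
        funext ω
        rw [hf]
        by_cases h2 : ω ∈ A <;> by_cases h3 : ω ∈ S M <;> simp [h2, h3]
      rw [e, integral_indicator_const _ (hAm'.inter hSm')]
      simp
    have hint : Integrable (fun ω => f ω * cp μ ℱ S M ω) μ := by
      have h4 : Integrable (cp μ ℱ S M) μ := integrable_condExp
      exact h4.bdd_mul (hfm.mono (ℱ.le _)).aestronglyMeasurable (c := 1)
        (Filter.Eventually.of_forall fun ω => by rw [Real.norm_eq_abs]; exact hfb ω)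
    have hlow : p M * μ.real A ≤ ∫ ω, f ω * cp μ ℱ S M ω ∂μ := by
      rw [← hAreal, ← integral_const_mul]
      refine integral_mono ?_ hint fun ω => ?_
      · exact ((integrable_const (1 : ℝ)).indicator hAm').const_mul _
      · simp only
        rw [hf]
        by_cases h : ω ∈ A
        · rw [Set.indicator_of_mem h, mul_one, one_mul]
          exact h.2
        · rw [Set.indicator_of_notMem h]; simp
    have hdiff : μ.real (A \ S M) = μ.real A - μ.real (A ∩ S M) := by
      have := measureReal_sdiff_add_inter (μ := μ) (s := A) hSm'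
      linarith
    have hAle : μ.real A ≤ ∏ m ∈ T', (1 - p m) := by
      refine le_trans (measureReal_mono ?_) ih'
      intro ω hω
      exact hω.1
    rw [Finset.prod_insert hMT]
    refine (measureReal_mono hsub).trans ?_
    rw [hdiff, ← hASreal, hpull]
    have h5 : (1 - p M) * μ.real A ≤ (1 - p M) * ∏ m ∈ T', (1 - p m) :=
      mul_le_mul_of_nonneg_left hAle (by linarith)
    linarith

end Pool.Agent.J6H40.WG2
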