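import Pool.Agent.J6H40.WG2.Stm

set_option autoImplicit false

/-!
# WB: elementary bounds for the products of `(1 - 1/q)⁻¹`
-/

namespace Pool.Agent.J6H40.WG2

open Finset

/-- the product of the `(1 - 1/q)⁻¹` over `k` naturals `q ≥ 2` is between `1` and `k + 1` -/
theorem prod_inv_le (s : Finset ℕ) : (∀ q ∈ s, 2 ≤ q) →
    1 ≤ ∏ q ∈ s, (1 - (q : ℝ)⁻¹)⁻¹ ∧ ∏ q ∈ s, (1 - (q : ℝ)⁻¹)⁻¹ ≤ s.card + 1 := by
  induction s using Finset.induction_on_max with
  | empty => intro _; simp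
  | insert a t ha ih =>
    intro h
    have hat : a ∉ t := fun h' => lt_irrefl _ (ha a h')
    obtain ⟨i1, i2⟩ := ih fun q hq => h q (mem_insert_of_mem hq)
    have ha2 : 2 ≤ a := h a (mem_insert_self a t)
    have hsub : t ⊆ Ico 2 a := fun q hq => mem_Ico.2 ⟨h q (mem_insert_of_mem hq), ha q hq⟩
    have hc : t.card + 2 ≤ a := by
      have := card_le_card hsub
      rw [Nat.card_Ico] at this
      omega
    have hc' : (t.card : ℝ) + 2 ≤ a := by exact_mod_cast hc
    have ha1 : (0 : ℝ) < (a : ℝ) - 1 := by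
      have : (0 : ℝ) ≤ t.card := Nat.cast_nonneg _
      linarith
    have ha0 : (0 : ℝ) < a := by linarith
    have hf : (1 - (a : ℝ)⁻¹)⁻¹ = a / (a - 1) := by
      field_simp
    have h1 : 1 ≤ (1 - (a : ℝ)⁻¹)⁻¹ := by
      rw [hf, le_div_iff₀ ha1]
      linarith
    have hk0 : (0 : ℝ) ≤ t.card := Nat.cast_nonneg _
    have h2 : (1 - (a : ℝ)⁻¹)⁻¹ ≤ ((t.card : ℝ) + 2) / ((t.card : ℝ) + 1) := by
      rw [hf, div_le_div_iff₀ ha1 (by linarith)]
      nlinarith
    rw [prod_insert hat, card_insert_of_notMem hat]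
    refine ⟨one_le_mul_of_one_le_of_one_le h1 i1, ?_⟩
    calc (1 - (a : ℝ)⁻¹)⁻¹ * ∏ q ∈ t, (1 - (q : ℝ)⁻¹)⁻¹
        ≤ ((t.card : ℝ) + 2) / ((t.card : ℝ) + 1) * ((t.card : ℝ) + 1) := by
          apply mul_le_mul h2 i2 (by linarith)
          positivity
      _ = ((t.card + 1 : ℕ) : ℝ) + 1 := by
          field_simp
          push_cast
          ring

/-- WB -/
theorem t_WB : s_WB := by
  refine ⟨fun v => ?_, fun d hd => ?_⟩
  · have h := prod_inv_le ((Icc 1 v).filter Nat.Prime) fun q hq => (mem_filter.1 hq).2.two_le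
    refine ⟨h.1, h.2.trans ?_⟩
    have h1 : ((Icc 1 v).filter Nat.Prime).card ≤ v := by
      have := card_filter_le (Icc 1 v) Nat.Prime
      rwa [Nat.card_Icc, Nat.add_sub_cancel] at this
    have h2 : (((Icc 1 v).filter Nat.Prime).card : ℝ) ≤ v := by exact_mod_cast h1
    linarith
  · have h := prod_inv_le d.primeFactors fun q hq => (Nat.prime_of_mem_primeFactors hq).two_le
    have hd0 : (0 : ℝ) < d := by exact_mod_cast hd
    have hq := Nat.totient_eq_mul_prod_factors d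
    have hr : (Nat.totient d : ℝ) = d * ∏ p ∈ d.primeFactors, (1 - (p : ℝ)⁻¹) := by
      have := congrArg (fun x : ℚ => (x : ℝ)) hq
      push_cast at this
      exact this
    have h1 : (d : ℝ) / (Nat.totient d : ℝ) = ∏ p ∈ d.primeFactors, (1 - (p : ℝ)⁻¹)⁻¹ := by
      rw [hr, prod_inv_distrib, div_eq_mul_inv, mul_inv, ← mul_assoc, mul_inv_cancel₀ hd0.ne', one_mul]
    have h2 : 2 ^ d.primeFactors.card ≤ d := by
      calc 2 ^ d.primeFactors.card ≤ ∏ p ∈ d.primeFactors, p :=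
            pow_card_le_prod _ _ _ fun p hp => (Nat.prime_of_mem_primeFactors hp).two_le
        _ ≤ d := Nat.le_of_dvd hd (Nat.prod_primeFactors_dvd d)
    have h3 : (2 : ℝ) ^ d.primeFactors.card ≤ d := by exact_mod_cast h2
    have h4 : (d.primeFactors.card : ℝ) * Real.log 2 ≤ Real.log d := by
      rw [← Real.log_pow]
      exact Real.log_le_log (by positivity) h3
    have h5 : (0 : ℝ) < Real.log 2 := Real.log_pos (by norm_num)
    have h6 : (d.primeFactors.card : ℝ) ≤ Real.log d / Real.log 2 := (le_div_iff₀ h5).2 h4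
    rw [h1]
    linarith [h.2]

end Pool.Agent.J6H40.WG2
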