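import Pool.Agent.J6H40.WG2.Stm

/-!
# Module WG-WD (helper78): `W v * Dn d v` versus `d / φ(d)`
-/

set_option autoImplicit false

namespace Pool.Agent.J6H40.WG2

namespace WDAux

theorem one_sub_sum_le (s : Finset ℕ) (y : ℕ → ℝ) (h0 : ∀ q ∈ s, 0 ≤ y q) (h1 : ∀ q ∈ s, y q ≤ 1) :
    1 - ∑ q ∈ s, y q ≤ ∏ q ∈ s, (1 - y q) ∧ 0 ≤ ∏ q ∈ s, (1 - y q) ∧ ∏ q ∈ s, (1 - y q) ≤ 1 := by
  classical
  induction s using Finset.induction_on with
  | empty => simp
  | insert a s ha ih =>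
    obtain ⟨i1, i2, i3⟩ := ih (fun q hq => h0 q (Finset.mem_insert_of_mem hq))
      (fun q hq => h1 q (Finset.mem_insert_of_mem hq))
    have a0 := h0 a (Finset.mem_insert_self a s)
    have a1 := h1 a (Finset.mem_insert_self a s)
    rw [Finset.sum_insert ha, Finset.prod_insert ha]
    refine ⟨?_, mul_nonneg (by linarith) i2, ?_⟩
    · nlinarith
    · nlinarith

end WDAux

theorem t_WD : s_WD := by
  intro d v hd
  have hd0 : d ≠ 0 := by omega
  have hdR : (d : ℝ) ≠ 0 := by exact_mod_cast hd0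
  have hx : ∀ q : ℕ, q.Prime → (0 : ℝ) < 1 - (q : ℝ)⁻¹ := by
    intro q hq
    have h2 : (1 : ℝ) < q := by exact_mod_cast hq.one_lt
    have := inv_lt_one_of_one_lt₀ h2
    linarith
  have h1 : (Nat.totient d : ℝ) = d * ∏ q ∈ d.primeFactors, (1 - (q : ℝ)⁻¹) := by
    have h := Nat.totient_eq_mul_prod_factors d
    have h' := congrArg (fun r : ℚ => (r : ℝ)) h
    push_cast at h'
    exact h'
  have hsplit := Finset.prod_filter_mul_prod_filter_not d.primeFactors (fun q => v < q)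
    (fun q => (1 : ℝ) - (q : ℝ)⁻¹)
  have hW : W v * Dn d v =
      ∏ q ∈ d.primeFactors.filter (fun q => ¬ v < q), (1 - (q : ℝ)⁻¹)⁻¹ := by
    unfold W Dn
    rw [← Finset.prod_filter_mul_prod_filter_not ((Finset.Icc 1 v).filter Nat.Prime)
      (fun q => q ∣ d) (fun q => ((1 : ℝ) - (q : ℝ)⁻¹)⁻¹), Finset.filter_filter,
      Finset.filter_filter, mul_assoc, ← Finset.prod_mul_distrib]
    have e1 : ∏ q ∈ (Finset.Icc 1 v).filter (fun q => q.Prime ∧ ¬ q ∣ d),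
        ((1 - (q : ℝ)⁻¹)⁻¹ * (1 - (q : ℝ)⁻¹)) = 1 := by
      refine Finset.prod_eq_one (fun q hq => ?_)
      exact inv_mul_cancel₀ (hx q (Finset.mem_filter.1 hq).2.1).ne'
    rw [e1, mul_one]
    refine Finset.prod_congr ?_ (fun _ _ => rfl)
    ext q
    simp only [Finset.mem_filter, Finset.mem_Icc, Nat.mem_primeFactors]
    constructor
    · rintro ⟨⟨_, h3⟩, h4, h5⟩
      exact ⟨⟨h4, h5, hd0⟩, by omega⟩
    · rintro ⟨⟨h4, h5, _⟩, h3⟩
      exact ⟨⟨h4.one_lt.le, by omega⟩, h4, h5⟩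
  have hlow : (0 : ℝ) < ∏ q ∈ d.primeFactors.filter (fun q => ¬ v < q), (1 - (q : ℝ)⁻¹) :=
    Finset.prod_pos (fun q hq => hx q (Nat.prime_of_mem_primeFactors (Finset.mem_filter.1 hq).1))
  have hhigh : (0 : ℝ) < ∏ q ∈ d.primeFactors.filter (fun q => v < q), (1 - (q : ℝ)⁻¹) :=
    Finset.prod_pos (fun q hq => hx q (Nat.prime_of_mem_primeFactors (Finset.mem_filter.1 hq).1))
  have hq : (d : ℝ) / (Nat.totient d : ℝ) =
      (∏ q ∈ d.primeFactors.filter (fun q => v < q), (1 - (q : ℝ)⁻¹))⁻¹ *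
        (∏ q ∈ d.primeFactors.filter (fun q => ¬ v < q), (1 - (q : ℝ)⁻¹))⁻¹ := by
    rw [h1, ← hsplit]
    field_simp
  have key : W v * Dn d v = ((d : ℝ) / (Nat.totient d : ℝ)) *
      ∏ q ∈ d.primeFactors.filter (fun q => v < q), (1 - (q : ℝ)⁻¹) := by
    rw [hW, hq, Finset.prod_inv_distrib]
    generalize ∏ q ∈ d.primeFactors.filter (fun q => v < q), ((1 : ℝ) - (q : ℝ)⁻¹) = H at hhigh
    generalize (∏ q ∈ d.primeFactors.filter (fun q => ¬ v < q), ((1 : ℝ) - (q : ℝ)⁻¹))⁻¹ = L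
    rw [mul_assoc, mul_comm L H, ← mul_assoc, inv_mul_cancel₀ hhigh.ne', one_mul]
  have hnn : (0 : ℝ) ≤ (d : ℝ) / (Nat.totient d : ℝ) := by positivity
  obtain ⟨k1, _, k3⟩ := WDAux.one_sub_sum_le (d.primeFactors.filter (fun q => v < q))
    (fun q => (q : ℝ)⁻¹) (fun q _ => by positivity) (fun q hq => by
      have := hx q (Nat.prime_of_mem_primeFactors (Finset.mem_filter.1 hq).1)
      linarith)
  rw [key]
  constructor
  · calc _ ≤ ((d : ℝ) / (Nat.totient d : ℝ)) * 1 := mul_le_mul_of_nonneg_left k3 hnn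
      _ = _ := mul_one _
  · rw [mul_comm]
    exact mul_le_mul_of_nonneg_left k1 hnn

end Pool.Agent.J6H40.WG2
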