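import Pool.Agent.J6H40.WG2.Def

set_option autoImplicit false

/-!
# Project WG (MP_458f0b_nt): statements of the modules

Every module `XX` is a file `Pool/Agent/J6H40/WG2/XX.lean` with `theorem t_XX : s_XX` (or
`theorem t_XX (h1 : s_YY) ... : s_XX`, with the statements `s_YY` of the modules named in its docstring as
hypotheses).  The docstrings contain complete proofs.
-/

open MeasureTheory Filter
open scoped Topology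

namespace Pool.Agent.J6H40.WG2

/-- PULL (no hypotheses). `∫ f 1_{S m} = ∫ f cp_m` for bounded `ℱ (m-1)`-measurable `f`.
`condExp_mul_of_stronglyMeasurable_left` and `integral_condExp`. -/
def s_PULL : Prop := ∀ (Ω : Type) [mΩ : MeasurableSpace Ω] (μ : Measure Ω) [IsProbabilityMeasure μ]
  (ℱ : Filtration ℕ mΩ) (S : ℕ → Set Ω), (∀ n, MeasurableSet[ℱ n] (S n)) →
  ∀ (m : ℕ) (f : Ω → ℝ) (C : ℝ), StronglyMeasurable[ℱ (m - 1)] f → (∀ ω, |f ω| ≤ C) →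
    ∫ ω, f ω * (S m).indicator (fun _ => (1 : ℝ)) ω ∂μ = ∫ ω, f ω * cp μ ℱ S m ω ∂μ

/-- UP (hypothesis `s_PULL`). By `Finset.induction_on_max` on `T`: for `T = insert M T'` the event is
`A ∩ (S M)ᶜ`, `A = {(∀ m ∈ T', ω ∉ S m) ∧ (∀ m ∈ T', p m ≤ cp m ω) ∧ p M ≤ cp M ω}` is measurable with respect
to `ℱ (M - 1)` (`cp m` is `stronglyMeasurable_condExp`), and
`μ (A ∩ (S M)ᶜ) = ∫ 1_A (1 - 1_{S M}) = ∫ 1_A (1 - cp M) ≤ (1 - p M) μ(A)`. -/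
def s_UP : Prop := ∀ (Ω : Type) [mΩ : MeasurableSpace Ω] (μ : Measure Ω) [IsProbabilityMeasure μ]
  (ℱ : Filtration ℕ mΩ) (S : ℕ → Set Ω), (∀ n, MeasurableSet[ℱ n] (S n)) →
  ∀ (T : Finset ℕ) (p : ℕ → ℝ), (∀ m ∈ T, 1 ≤ m ∧ 0 ≤ p m ∧ p m ≤ 1) →
    μ.real {ω | (∀ m ∈ T, ω ∉ S m) ∧ ∀ m ∈ T, p m ≤ cp μ ℱ S m ω} ≤ ∏ m ∈ T, (1 - p m)

/-- DIS (hypothesis `s_PULL`). Induction on `N` for families with `T i ⊆ [1, N]` (generalize `I` and `T`).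
If no `T i` contains `N` this is the case `N - 1`.  Otherwise exactly one `i0 ∈ I` has `N ∈ T i0`.  Put
`T' i = T i \ {N}`, `Q' = ∏_{m ∈ T' i0} (1 - p m)`, and
`A = {all T' i (i ∈ I) hit} ∩ {cp m ≤ p m on all T i, including N}`,
`B = {all T i (i ≠ i0) hit, T' i0 not hit} ∩ {same bounds}`, both measurable with respect to `ℱ (N - 1)`.  The
event is contained in `A ∪ (B ∩ S N)`, so its probability is at most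
`μ A + ∫ 1_B cp_N ≤ μ A + p_N μ B = (1 - p_N) μ A + p_N μ (A ∪ B)`.  By the induction hypothesis for `(I, T')`
(`A` is contained in its event) and for `(I \ {i0}, T)` (`A ∪ B` is contained in its event), this is at most
`(1 - p_N) (∏_{i ≠ i0} (1 - Q i)) (1 - Q') + p_N ∏_{i ≠ i0} (1 - Q i) = ∏_{i ≠ i0} (1 - Q i) (1 - (1 - p_N) Q')`. -/
def s_DIS : Prop := ∀ (Ω : Type) [mΩ : MeasurableSpace Ω] (μ : Measure Ω) [IsProbabilityMeasure μ]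
  (ℱ : Filtration ℕ mΩ) (S : ℕ → Set Ω), (∀ n, MeasurableSet[ℱ n] (S n)) →
  ∀ (I : Finset ℕ) (T : ℕ → Finset ℕ) (p : ℕ → ℝ),
    (∀ i ∈ I, ∀ j ∈ I, i ≠ j → Disjoint (T i) (T j)) →
    (∀ i ∈ I, ∀ m ∈ T i, 1 ≤ m ∧ 0 ≤ p m ∧ p m ≤ 1) →
    μ.real {ω | (∀ i ∈ I, ∃ m ∈ T i, ω ∈ S m) ∧ ∀ i ∈ I, ∀ m ∈ T i, cp μ ℱ S m ω ≤ p m} ≤
      ∏ i ∈ I, (1 - ∏ m ∈ T i, (1 - p m))

/-- GM (no hypotheses). Moments of products of weights.  Induction on `T` by `Finset.induction_on_max` (take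
the largest element `M` off; the remaining product is `ℱ (M - 1)`-measurable, nonnegative and bounded by
`2 ^ card * 2 ^ card`), for the second part distinguish `M ∈ A` (hypothesis with the square) and `M ∉ A`. -/
def s_GM : Prop := ∀ (Ω : Type) [mΩ : MeasurableSpace Ω] (μ : Measure Ω) [IsProbabilityMeasure μ]
  (ℱ : Filtration ℕ mΩ) (g : ℕ → Ω → ℝ) (c : ℕ → ℝ) (T : Finset ℕ),
  (∀ m ∈ T, 1 ≤ m ∧ StronglyMeasurable[ℱ m] (g m) ∧ (∀ ω, 0 ≤ g m ω ∧ g m ω ≤ 2) ∧ 0 ≤ c m) →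
  (∀ m ∈ T, ∀ f : Ω → ℝ, StronglyMeasurable[ℱ (m - 1)] f → (∀ ω, 0 ≤ f ω) → (∃ C : ℝ, ∀ ω, f ω ≤ C) →
    ∫ ω, f ω * g m ω ∂μ = ∫ ω, f ω ∂μ) →
  (∀ m ∈ T, ∀ f : Ω → ℝ, StronglyMeasurable[ℱ (m - 1)] f → (∀ ω, 0 ≤ f ω) → (∃ C : ℝ, ∀ ω, f ω ≤ C) →
    ∫ ω, f ω * g m ω ^ 2 ∂μ ≤ c m * ∫ ω, f ω ∂μ) →
  (∫ ω, ∏ m ∈ T, g m ω ∂μ = 1) ∧
  ∀ A : Finset ℕ, A ⊆ T → ∫ ω, (∏ m ∈ T, g m ω) * (∏ m ∈ A, g m ω) ∂μ ≤ ∏ m ∈ A, c m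

/-- GC (hypothesis `s_PULL`). The weights `gw` satisfy the hypotheses of GM with `c m = (1 - p m)⁻¹`.
With `V = {∀ k ∈ U, k ≤ m → cp k ω ≤ p k}` (`ℱ (m - 1)`-measurable),
`gw = 1_{Vᶜ} + 1_V (1 - 1_{S m}) (1 - cp m)⁻¹`; on `V`, `1 - cp m ≥ 1 - p m ≥ 1/2`.  PULL with
`f 1_V (1 - cp m)⁻¹` and with `f 1_V (1 - cp m)⁻²` (bounded, `ℱ (m - 1)`-measurable) gives
`∫ f gw = ∫ f` and `∫ f gw² = ∫ f 1_{Vᶜ} + ∫ f 1_V (1 - cp m)⁻¹ ≤ (1 - p m)⁻¹ ∫ f`. -/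
def s_GC : Prop := ∀ (Ω : Type) [mΩ : MeasurableSpace Ω] (μ : Measure Ω) [IsProbabilityMeasure μ]
  (ℱ : Filtration ℕ mΩ) (S : ℕ → Set Ω), (∀ n, MeasurableSet[ℱ n] (S n)) →
  ∀ (U : Finset ℕ) (p : ℕ → ℝ), (∀ m ∈ U, 1 ≤ m ∧ 0 ≤ p m ∧ p m ≤ 1 / 2) → ∀ m ∈ U,
    StronglyMeasurable[ℱ m] (gw μ ℱ S U p m) ∧
    (∀ ω, 0 ≤ gw μ ℱ S U p m ω ∧ gw μ ℱ S U p m ω ≤ 2) ∧
    (∀ f : Ω → ℝ, StronglyMeasurable[ℱ (m - 1)] f → (∀ ω, 0 ≤ f ω) → (∃ C : ℝ, ∀ ω, f ω ≤ C) →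
      ∫ ω, f ω * gw μ ℱ S U p m ω ∂μ = ∫ ω, f ω ∂μ) ∧
    (∀ f : Ω → ℝ, StronglyMeasurable[ℱ (m - 1)] f → (∀ ω, 0 ≤ f ω) → (∃ C : ℝ, ∀ ω, f ω ≤ C) →
      ∫ ω, f ω * gw μ ℱ S U p m ω ^ 2 ∂μ ≤ (1 - p m)⁻¹ * ∫ ω, f ω ∂μ)

/-- CH (no hypotheses). Chebyshev: `n = |I|`, `Y = ∑_{i ∈ I} w i`, `∫ Y = n`,
`∫ (Y - n)² = ∫ Y² - n² ≤ n² (1 + 2δ) + n B - n²`, and `(Y - n)² = n²` on the event. -/
def s_CH : Prop := ∀ (Ω : Type) [mΩ : MeasurableSpace Ω] (μ : Measure Ω) [IsProbabilityMeasure μ]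
  (ι : Type) (I : Finset ι) (w : ι → Ω → ℝ) (δ B : ℝ), I.Nonempty → 0 ≤ δ → 0 ≤ B →
  (∀ i ∈ I, Measurable (w i) ∧ ∃ C : ℝ, ∀ ω, |w i ω| ≤ C) →
  (∀ i ∈ I, ∫ ω, w i ω ∂μ = 1) →
  (∀ i ∈ I, ∀ j ∈ I, i ≠ j → ∫ ω, w i ω * w j ω ∂μ ≤ 1 + 2 * δ) →
  (∀ i ∈ I, ∫ ω, w i ω ^ 2 ∂μ ≤ B) →
  μ.real {ω | ∀ i ∈ I, w i ω = 0} ≤ 2 * δ + B / (I.card : ℝ)

/-- SEC (hypotheses `s_GM`, `s_GC`, `s_CH`). `U = ⋃_{i ∈ I} T i` (`Finset.biUnion`), `g m = gw μ ℱ S U p m`,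
`w i = ∏_{m ∈ T i} g m`.  By GC and GM (with `c m = (1 - p m)⁻¹`): `∫ w i = 1`;
`w i * w j = ∏_{T i ∪ T j} g * ∏_{T i ∩ T j} g` (`Finset.prod_union_inter`), so for `i ≠ j`
`∫ w i w j ≤ ∏_{T i ∩ T j} c ≤ (1 - δ)⁻¹ ≤ 1 + 2δ` (at most one factor), and for `i = j`
`∫ (w i)² ≤ ∏_{T i} c ≤ B`.  On the event all `w i = 0`: the bounds hold for all `k ∈ U`, so
`g m = 0` for `m ∈ T i`, `ω ∈ S m`.  Then CH. -/
def s_SEC : Prop := ∀ (Ω : Type) [mΩ : MeasurableSpace Ω] (μ : Measure Ω) [IsProbabilityMeasure μ]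
  (ℱ : Filtration ℕ mΩ) (S : ℕ → Set Ω), (∀ n, MeasurableSet[ℱ n] (S n)) →
  ∀ (I : Finset (ℕ × ℕ)) (T : ℕ × ℕ → Finset ℕ) (p : ℕ → ℝ) (δ B : ℝ), I.Nonempty → 0 ≤ δ → δ ≤ 1 / 2 →
    (∀ i ∈ I, ∀ j ∈ I, i ≠ j → (T i ∩ T j).card ≤ 1) →
    (∀ i ∈ I, ∀ m ∈ T i, 1 ≤ m ∧ 0 ≤ p m ∧ p m ≤ δ) →
    (∀ i ∈ I, ∏ m ∈ T i, (1 - p m)⁻¹ ≤ B) →
    μ.real {ω | (∀ i ∈ I, ∃ m ∈ T i, ω ∈ S m) ∧ ∀ i ∈ I, ∀ m ∈ T i, cp μ ℱ S m ω ≤ p m} ≤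
      2 * δ + B / (I.card : ℝ)

/-- CNT (no hypotheses; uses the fundamental lemma `Pool.Agent.TH882.FL.fl1 1`). The number of `j ∈ [u, w)` such
that `a + j d` has no prime factor `q ≤ v`, up to a factor `1 ± ε` and an error `(v + 2) ^ s`.
Take `C0` from `fl1 1`, `b ≥ C0` with `(1/2) ^ b ≤ ε`, `z0 = C0`, `M = ∏` of the primes `q ≤ min C0 v` with `q ∤ d`,
`P` = the primes `q` with `C0 < q ≤ v`, `q ∤ d`, and `J` minimal with `v ≤ 2 ^ 2 ^ J` (so `2 ^ 2 ^ J ≤ (v + 2) ^ 2`,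
`J ≤ v`).  If `q ∣ d` then `q ∤ a + j d`; for `q ∤ d` put `Om q = {c q}`, `c q = - a / d mod q`
(`q ∣ a + j d ↔ j % q = c q`).  For `r < M` with `(a + r d, M) = 1` let `S r = {j ∈ [u, w) : j % M = r}`,
`A = (w - u) / M`; by the Chinese remainder theorem the condition of `fl1` holds (an interval of length `w - u`
contains `(w - u)/m ± 1` elements of a residue class mod `m = M ∏_{p ∈ T} p`).  Add over the `φ(M)` good `r`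
(`φ(M)/M = ∏_{q ∣ M} (1 - 1/q)`): the main term is `(w - u) Dn d v`, the error at most
`ε (w - u) Dn d v + M (J + 2) (2 ^ 2 ^ J) ^ (2 C0 b)`, `M ≤ 4 ^ C0`, so `s = 2 C0 + 1 + 4 C0 b` works. -/
def s_CNT : Prop := ∀ ε : ℝ, 0 < ε → ∃ s : ℕ, ∀ (d a v u w : ℕ), 1 ≤ d → Nat.Coprime a d → u ≤ w →
  |(((Finset.Ico u w).filter (fun j => ∀ q ∈ Finset.Icc 1 v, q.Prime → ¬ q ∣ a + j * d)).card : ℝ)
    - ((w : ℝ) - u) * Dn d v| ≤ ε * (((w : ℝ) - u) * Dn d v) + ((v : ℝ) + 2) ^ s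

/-- WD (no hypotheses). `W v * Dn d v = ∏_{q ≤ v, q ∣ d} (1 - 1/q)⁻¹`, and
`d / φ(d) = ∏_{q ∣ d} (1 - 1/q)⁻¹` (`Nat.totient_eq_mul_prod_factors`), so the quotient
`W v Dn d v / (d / φ(d)) = ∏_{q ∣ d, q > v} (1 - 1/q)` lies between `1 - ∑_{q ∣ d, q > v} 1/q` and `1`
(`Finset.prod_one_sub...`/`one_sub_sum_le_prod`-type inequality, or induction). -/
def s_WD : Prop := ∀ (d v : ℕ), 1 ≤ d →
  W v * Dn d v ≤ (d : ℝ) / (Nat.totient d : ℝ) ∧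
  (1 - ∑ q ∈ d.primeFactors.filter (fun q => v < q), (q : ℝ)⁻¹) * ((d : ℝ) / (Nat.totient d : ℝ)) ≤
    W v * Dn d v

/-- WB (no hypotheses). For `k` distinct naturals `≥ 2` the product of the `(1 - 1/q)⁻¹` is at most `k + 1`
(`Finset.induction_on_max`: the largest is `≥ k + 1`, so its factor is at most `(k+1)/k`).  First part: at most
`v` primes.  Second part: `d / φ(d) = ∏_{q ∣ d} (1 - 1/q)⁻¹ ≤ ω(d) + 1 ≤ log d / log 2 + 1` as `2 ^ ω(d) ≤ d`. -/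
def s_WB : Prop := (∀ v : ℕ, 1 ≤ W v ∧ W v ≤ v + 1) ∧
  ∀ d : ℕ, 1 ≤ d → (d : ℝ) / (Nat.totient d : ℝ) ≤ Real.log d / Real.log 2 + 1

/-- BLK (hypotheses `s_CNT`, `s_WB`). Split `[u, w)` according to the value `v = z (a + j d) ∈ {0, ..., V}`;
as `z` is monotone each fiber is an interval `[u_v, w_v)` of `j`s (for a nonempty fiber take its minimum and
maximum plus one).  On the fiber `Rough z (a + j d)` means that no prime `q ≤ v` divides `a + j d`, so CNT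
(times `W v ≤ V + 1`) gives the error `ε (w_v - u_v) W v Dn d v + (V + 1) (V + 2) ^ s` on each of the `V + 1`
fibers.  So `s + 2` works. -/
def s_BLK : Prop := ∀ ε : ℝ, 0 < ε → ∃ s : ℕ, ∀ (z : ℕ → ℕ), Monotone z →
  ∀ (d a V u w : ℕ), 1 ≤ d → Nat.Coprime a d → u ≤ w → (∀ j, j < w → z (a + j * d) ≤ V) →
  ∀ R : ℕ → ℝ, (∀ j, Rough z (a + j * d) → R j = W (z (a + j * d))) →
    (∀ j, ¬ Rough z (a + j * d) → R j = 0) →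
  |∑ j ∈ Finset.Ico u w, R j - ∑ j ∈ Finset.Ico u w, W (z (a + j * d)) * Dn d (z (a + j * d))| ≤
    ε * ∑ j ∈ Finset.Ico u w, W (z (a + j * d)) * Dn d (z (a + j * d)) + ((V : ℝ) + 2) ^ s

/-- AS (no hypotheses). `X c d + d ≤ d ^ 2` for large `d` (`φ(d) ≤ d`, `log² d = o(d)`), so with
`V = z (X c d + d)`, `V ≤ (2 log d) ^ δ` for every `δ > 0` and large `d` (monotone); take `δ < 1 / s`. -/
def s_AS : Prop := ∀ z : ℕ → ℕ, Slow z → ∀ c : ℝ, 0 < c → ∀ s : ℕ,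
  Tendsto (fun d : ℕ => ((z (X c d + d) : ℝ) + 2) ^ s / Real.log d) atTop (𝓝 0)

/-- SU (hypotheses `s_BLK`, `s_AS`, `s_WB`, `s_WD`). `x = X c d`; every `m ∈ T z d a 1 x` is `a + j d`,
`0 ≤ j < J = x / d + 1`, with `m ≥ a ≥ d / 2`.  So the sum is at most
`(log (d/2))⁻¹ ∑_{j < J} R j` (`R` as in BLK) `≤ (log (d/2))⁻¹ ((1 + ε) J d/φ(d) + (V+2)^s)`, `V = z (x + d)`,
by BLK (with `ε = min (η/2) 1`, say) and WD, and `J d / φ(d) ≤ c log² d + d / φ(d)`, `d / φ(d) ≤ log d / log 2 + 1`.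
Divide by `c log d` and let `d → ∞` (AS). -/
def s_SU : Prop := ∀ z : ℕ → ℕ, Slow z → ∀ c η : ℝ, 0 < c → 0 < η → ∀ᶠ d : ℕ in atTop,
  ∀ a : ℕ, a < d → d ≤ 2 * a → Nat.Coprime a d →
    ∑ m ∈ T z d a 1 (X c d), W (z m) / Real.log m ≤ (1 + η) * c * Real.log d

/-- SL (hypotheses `s_BLK`, `s_AS`, `s_WB`, `s_WD`). `x = X c d`; the `m = a + j d`, `1 ≤ j < J = (x - a)/d + 1`,
`J ≥ x / d - 1`, that are rough lie in `T z d a d x`, and `log m ≤ log x ≤ log d + 2 log log d + log c`.  So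
the sum is at least `(log x)⁻¹ ∑_{1 ≤ j < J} R j ≥ (log x)⁻¹ ((1 - ε)(J - 1)(1 - κ) d/φ(d) - (V+2)^s)` by BLK
(with `ε = κ/2`, say) and WD (`z m ≥ z d` for `m ≥ d`, so the sum over the prime factors `q > z m` of `d` is at
most `κ`), `(J - 1) d/φ(d) ≥ c log² d - 3 d/φ(d) - 1`, `d / φ(d) ≤ log d / log 2 + 1`.  Divide by `c log d`,
`d → ∞` (AS): the limit is `(1 - ε)(1 - κ) > 1 - 2κ`. -/
def s_SL : Prop := ∀ z : ℕ → ℕ, Slow z → ∀ c κ : ℝ, 0 < c → 0 < κ → κ < 1 / 2 → ∀ᶠ d : ℕ in atTop,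
  Few z κ d → ∀ a : ℕ, a < d → Nat.Coprime a d →
    (1 - 2 * κ) * c * Real.log d ≤ ∑ m ∈ T z d a d (X c d), W (z m) / Real.log m

/-- CC (no hypotheses). `a ↦ d - a` maps the `a < d` coprime to `d` with `2 a < d` (then `1 ≤ a`, as `d ≥ 2`)
injectively to those with `d ≤ 2 a`. -/
def s_CC : Prop := ∀ d : ℕ, 2 ≤ d →
  Nat.totient d ≤ 2 * ((Finset.range d).filter (fun a => Nat.Coprime a d ∧ d ≤ 2 * a)).card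

/-- PR (no hypotheses). From a Chebyshev lower bound for the number of primes (see
`Mathlib/NumberTheory/Chebyshev.lean`, e.g. `Chebyshev.theta_ge'`/`pi` bounds): `π(y) ≥ c y / log y ≥ 2 D` for
`y = D ^ (1 + κ)` and large `D`, and `π(D) ≤ D`. -/
def s_PR : Prop := ∀ κ : ℝ, 0 < κ → ∀ᶠ D : ℕ in atTop,
  D ≤ ((Finset.Ioc D ⌊(D : ℝ) ^ (1 + κ)⌋₊).filter Nat.Prime).card

/-- TI (no hypotheses). Two elements of the intersection are congruent mod `d` and mod `d'`.  If `d ≠ d'` they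
are congruent mod `d d' ≥ x`, and both lie in `[1, x]`, so they are equal.  If `d = d'` then `a ≠ a'` are not
congruent and the intersection is empty. -/
def s_TI : Prop := ∀ (z : ℕ → ℕ) (d d' a a' x x' : ℕ), d.Prime → d'.Prime → a < d → a' < d' →
  (d, a) ≠ (d', a') → x ≤ d * d' → (T z d a 1 x ∩ T z d' a' 1 x').card ≤ 1

/-- EXP (no hypotheses). `log (1 - p) ≥ - p / (1 - p) ≥ - (1 + η) p` for `p ≤ η / (1 + η)`. -/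
def s_EXP : Prop := ∀ η : ℝ, 0 < η → ∃ p0 : ℝ, 0 < p0 ∧ p0 ≤ 1 / 2 ∧
  ∀ p : ℝ, 0 ≤ p → p ≤ p0 → Real.exp (-((1 + η) * p)) ≤ 1 - p

/-- DT (hypothesis `s_WB`). `W (z m) ≤ z m + 1 ≤ (log m) ^ (1/2) + 1`. -/
def s_DT : Prop := ∀ z : ℕ → ℕ, Slow z → ∀ δ : ℝ, 0 < δ → ∀ᶠ m : ℕ in atTop,
  0 ≤ W (z m) / Real.log m ∧ W (z m) / Real.log m ≤ δ

/-- GE (hypothesis `s_WB`). `density` with `ε = κ`; index shift `m = n + 1`. -/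
def s_GE : Prop := ∀ (Ω : Type) [mΩ : MeasurableSpace Ω] (μ : Measure Ω) [IsProbabilityMeasure μ]
  (ℱ : Filtration ℕ mΩ) (S : ℕ → Set Ω) (z : ℕ → ℕ), IsModel μ ℱ S z → ∀ κ : ℝ, 0 < κ →
    ∀ᵐ ω ∂μ, ∃ N : ℕ, ω ∈ Lo μ ℱ S z κ N ∧ ω ∈ Up μ ℱ S z κ N

/-- UPD (hypotheses `s_UP`, `s_SL`, `s_DT`). `p m = (1 - κ) W (z m) / log m ∈ [0, 1]` for `m ≥ d` large (DT);
the event is contained in that of UP (`m ∈ T z d a d x` is rough and `m ≥ d ≥ N`), and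
`∏ (1 - p m) ≤ exp (- ∑ p m) ≤ exp (- (1 - κ)(1 - 2κ) c log d)` by SL. -/
def s_UPD : Prop := ∀ (z : ℕ → ℕ), Slow z → ∀ (Ω : Type) [mΩ : MeasurableSpace Ω] (μ : Measure Ω)
  [IsProbabilityMeasure μ] (ℱ : Filtration ℕ mΩ) (S : ℕ → Set Ω), (∀ n, MeasurableSet[ℱ n] (S n)) →
  ∀ c κ : ℝ, 0 < c → 0 < κ → κ < 1 / 2 → ∀ᶠ d : ℕ in atTop, Few z κ d → ∀ a : ℕ, a < d → Nat.Coprime a d →
    ∀ N : ℕ, N ≤ d →
    μ.real {ω | (∀ m ∈ T z d a d (X c d), ω ∉ S m) ∧ ω ∈ Lo μ ℱ S z κ N} ≤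
      (d : ℝ) ^ (-((1 - κ) * (1 - 2 * κ) * c))

/-- DISD (hypotheses `s_DIS`, `s_SU`, `s_DT`, `s_EXP`, `s_CC`). `I = {a < d : (a, d) = 1, d ≤ 2a}`,
`T a = T z d a 1 (X c d)` (disjoint: different residues), `p m = (1 + η) W (z m) / log m ≤ p0` for
`m ≥ d / 2` large (every `m ∈ T a` is `≥ a ≥ d / 2 ≥ N`).  Then
`∏_a (1 - ∏ (1 - p m)) ≤ exp (- ∑_a ∏_{m ∈ T a} (1 - p m))` and
`∏_{m ∈ T a} (1 - p m) ≥ exp (- (1 + η) ∑ p m) ≥ exp (-(1 + η)² (1 + η) c log d)` by EXP and SU; `|I| ≥ φ(d)/2`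
by CC. -/
def s_DISD : Prop := ∀ (z : ℕ → ℕ), Slow z → ∀ (Ω : Type) [mΩ : MeasurableSpace Ω] (μ : Measure Ω)
  [IsProbabilityMeasure μ] (ℱ : Filtration ℕ mΩ) (S : ℕ → Set Ω), (∀ n, MeasurableSet[ℱ n] (S n)) →
  ∀ c η : ℝ, 0 < c → 0 < η → ∀ᶠ d : ℕ in atTop, ∀ N : ℕ, 2 * N ≤ d →
    μ.real {ω | (∀ a : ℕ, a < d → d ≤ 2 * a → Nat.Coprime a d → ∃ m ∈ T z d a 1 (X c d), ω ∈ S m) ∧
      ω ∈ Up μ ℱ S z η N} ≤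
      Real.exp (-((Nat.totient d : ℝ) / 2 * (d : ℝ) ^ (-((1 + η) ^ 3 * c))))

/-- SECD (hypotheses `s_SEC`, `s_SU`, `s_DT`, `s_EXP`, `s_CC`, `s_PR`, `s_TI`).
`I = {(d, a) : d prime, D < d ≤ D ^ (1 + κ), a < d ≤ 2a, (a, d) = 1}`, `T (d, a) = T z d a 1 (X c d)`,
`p m = (1 + η) W (z m) / log m ≤ δ := min (p0) (η / 2)` for `m ≥ D / 2` large.  For different pairs the
intersections have at most one element by TI, as `X c d ≤ c d log² d ≤ D ^ 2` for `d ≤ D ^ (1 + κ)`, `κ < 1/2`,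
`D` large.  `B = D ^ ((1 + κ) (1 + η) ^ 3 c)`: `∏ (1 - p m)⁻¹ ≤ exp ((1 + η) ∑ p m) ≤ exp ((1 + η) ^ 3 c log d)`
by EXP and SU.  `|I| ≥ D * D / 2` by PR and CC (`φ(d) = d - 1 ≥ D`).  `2 δ ≤ η`. -/
def s_SECD : Prop := ∀ (z : ℕ → ℕ), Slow z → ∀ (Ω : Type) [mΩ : MeasurableSpace Ω] (μ : Measure Ω)
  [IsProbabilityMeasure μ] (ℱ : Filtration ℕ mΩ) (S : ℕ → Set Ω), (∀ n, MeasurableSet[ℱ n] (S n)) →
  ∀ c η κ : ℝ, 0 < c → 0 < η → 0 < κ → κ < 1 / 2 → ∀ N : ℕ, ∀ᶠ D : ℕ in atTop,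
    μ.real {ω | (∀ d : ℕ, d.Prime → D < d → (d : ℝ) ≤ (D : ℝ) ^ (1 + κ) →
        ∀ a : ℕ, a < d → d ≤ 2 * a → Nat.Coprime a d → ∃ m ∈ T z d a 1 (X c d), ω ∈ S m) ∧
      ω ∈ Up μ ℱ S z η N} ≤
      η + 4 * (D : ℝ) ^ ((1 + κ) * (1 + η) ^ 3 * c) / (D : ℝ) ^ 2

/-- P1 (hypotheses `s_DISD`, `s_GE`, `s_WB`). Take `η > 0` with `(1 + η) ^ 3 c < 1`.  By WB
`φ(d) d ^ (-(1+η)^3 c) / 2 ≥ d ^ s` for some `s > 0` and large `d`, and `∑ exp (- d ^ s) < ∞`.  For every `N` the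
bounds of DISD are summable, so by Borel–Cantelli (`measure_limsup_atTop_eq_zero` or
`MeasureTheory.ae_eventually_notMem`) almost surely, if `ω ∈ Up N`, then for all large `d` there is `a` with no
`m ∈ T z d a 1 (X c d)`, `ω ∈ S m`.  GE gives `N`.  If `n ≤ c φ(d) log² d`, `n ≡ a` and `ω ∈ S n` then `n` is
rough (`sieved`), `n ≥ 1` (as `a` is coprime to `d ≥ 2`) and `n ∈ T z d a 1 (X c d)`. -/
def s_P1 : Prop := ∀ (z : ℕ → ℕ), Slow z → ∀ (Ω : Type) [mΩ : MeasurableSpace Ω] (μ : Measure Ω)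
  [IsProbabilityMeasure μ] (ℱ : Filtration ℕ mΩ) (S : ℕ → Set Ω), IsModel μ ℱ S z →
  ∀ c : ℝ, 0 < c → c < 1 → ∀ᵐ ω ∂μ, ∃ d0 : ℕ, ∀ d : ℕ, d0 ≤ d → ∃ a : ℕ, a < d ∧ Nat.Coprime a d ∧
    ∀ n : ℕ, n ≡ a [MOD d] → (n : ℝ) ≤ c * (Nat.totient d : ℝ) * Real.log d ^ 2 → ω ∉ S n

/-- P2 (hypotheses `s_UPD`, `s_GE`). Take `κ > 0` with `(1 - κ)(1 - 2κ) c > 2`.  The bounds of UPD, summed over
`a < d` and over the `d ≥ N` with `Few z κ d`, converge; Borel–Cantelli over `d` (events: some `a` fails). -/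
def s_P2 : Prop := ∀ (z : ℕ → ℕ), Slow z → ∀ c : ℝ, 2 < c → ∃ κ : ℝ, 0 < κ ∧
  ∀ (Ω : Type) [mΩ : MeasurableSpace Ω] (μ : Measure Ω)
  [IsProbabilityMeasure μ] (ℱ : Filtration ℕ mΩ) (S : ℕ → Set Ω), IsModel μ ℱ S z →
  ∀ᵐ ω ∂μ, ∃ d0 : ℕ, ∀ d : ℕ, d0 ≤ d → Few z κ d → ∀ a : ℕ, a < d → Nat.Coprime a d →
    ∃ n : ℕ, n ≡ a [MOD d] ∧ (n : ℝ) ≤ c * (Nat.totient d : ℝ) * Real.log d ^ 2 ∧ ω ∈ S n

/-- P3 (hypotheses `s_SECD`, `s_GE`). For `j ≥ 1` take `η = η_j ≤ 1/j` with `(1 + η)^3 c < 2` and `κ > 0` with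
`(1 + κ)(1 + η)^3 c < 2`.  Let `E(d0) = {for all primes d ≥ d0 and all a < d coprime to d some n ≡ a (mod d),
n ≤ c φ(d) log² d, ω ∈ S n}`.  Such `n` are in `T z d a 1 (X c d)`.  So `E(d0) ∩ Up η N` is contained in the event of
SECD for all `D ≥ d0`, hence `μ (E(d0) ∩ Up η N) ≤ η`.  As `N → ∞`, `Up η N` increases to a set of full measure
(GE), so `μ (E(d0)) ≤ η` (outer measure is continuous from below), for every small `η`, so `μ (E(d0)) = 0`. -/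
def s_P3 : Prop := ∀ (z : ℕ → ℕ), Slow z → ∀ (Ω : Type) [mΩ : MeasurableSpace Ω] (μ : Measure Ω)
  [IsProbabilityMeasure μ] (ℱ : Filtration ℕ mΩ) (S : ℕ → Set Ω), IsModel μ ℱ S z →
  ∀ c : ℝ, 0 < c → c < 2 → ∀ᵐ ω ∂μ, ∀ d0 : ℕ, ∃ d : ℕ, d0 ≤ d ∧ d.Prime ∧ ∃ a : ℕ, a < d ∧ Nat.Coprime a d ∧
    ∀ n : ℕ, n ≡ a [MOD d] → (n : ℝ) ≤ c * (Nat.totient d : ℝ) * Real.log d ^ 2 → ω ∉ S n

/-- P4 (hypotheses `s_UPD`, `s_GE`). Take `κ > 0` with `(1 - κ)(1 - 2κ) c > 1`.  A prime `d ≥ 1/κ` satisfies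
`Few z κ d`.  For fixed `d0, N` the event {for all primes `d ≥ d0` some `a` has no `n`} ∩ Lo N has probability at
most `d * d ^ (-(1 - κ)(1 - 2κ) c)` for every large prime `d`, so `0`. -/
def s_P4 : Prop := ∀ (z : ℕ → ℕ), Slow z → ∀ (Ω : Type) [mΩ : MeasurableSpace Ω] (μ : Measure Ω)
  [IsProbabilityMeasure μ] (ℱ : Filtration ℕ mΩ) (S : ℕ → Set Ω), IsModel μ ℱ S z →
  ∀ c : ℝ, 1 < c → ∀ᵐ ω ∂μ, ∀ d0 : ℕ, ∃ d : ℕ, d0 ≤ d ∧ d.Prime ∧ ∀ a : ℕ, a < d → Nat.Coprime a d →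
    ∃ n : ℕ, n ≡ a [MOD d] ∧ (n : ℝ) ≤ c * (Nat.totient d : ℝ) * Real.log d ^ 2 ∧ ω ∈ S n

end Pool.Agent.J6H40.WG2
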