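import Mathlib

set_option autoImplicit false

/-!
# Definitions: sequential random models of the primes with a slowly growing sieve
-/

open MeasureTheory Filter
open scoped Topology

namespace Pool.Agent.J6H40.WG2

/-- `m` has no prime factor `q ≤ z m` -/
def Rough (z : ℕ → ℕ) (m : ℕ) : Prop := ∀ q : ℕ, q.Prime → q ≤ z m → ¬ q ∣ m

/-- `∏ (1 - 1/q)⁻¹` over the primes `q ≤ x` -/
noncomputable def W (x : ℕ) : ℝ := ∏ q ∈ (Finset.Icc 1 x).filter Nat.Prime, (1 - (q : ℝ)⁻¹)⁻¹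

/-- the sieving bound `z` is monotone and `z(m) = (log m) ^ o(1)` -/
def Slow (z : ℕ → ℕ) : Prop :=
  Monotone z ∧ ∀ δ : ℝ, 0 < δ → ∀ᶠ m : ℕ in atTop, (z m : ℝ) ≤ Real.log m ^ δ

/-- a sequential random model of the primes, sieved by the primes `q ≤ z(m)` -/
structure IsModel {Ω : Type} [mΩ : MeasurableSpace Ω] (μ : Measure Ω) (ℱ : Filtration ℕ mΩ)
    (S : ℕ → Set Ω) (z : ℕ → ℕ) : Prop where
  /-- whether `n` is chosen is known at the time `n` -/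
  adapted : ∀ n, MeasurableSet[ℱ n] (S n)
  /-- no `n` with a prime factor `q ≤ z n` is chosen -/
  sieved : ∀ n, ¬ Rough z n → S n = ∅
  /-- the conditional probability of `S (n + 1)` given `ℱ n` is asymptotic to `W (z (n + 1)) / log (n + 1)`
  along the `n` with `Rough z (n + 1)` -/
  density : ∀ᵐ ω ∂μ, Tendsto (fun n : ℕ =>
    (μ[(S (n + 1)).indicator (fun _ => (1 : ℝ)) | ℱ n]) ω * Real.log ((n + 1 : ℕ) : ℝ) / W (z (n + 1)))
    (atTop ⊓ 𝓟 {n : ℕ | Rough z (n + 1)}) (𝓝 1)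

/-- the conditional probability of `S m` given the past `ℱ (m - 1)` -/
noncomputable def cp {Ω : Type} [mΩ : MeasurableSpace Ω] (μ : Measure Ω) (ℱ : Filtration ℕ mΩ)
    (S : ℕ → Set Ω) (m : ℕ) : Ω → ℝ :=
  μ[(S m).indicator (fun _ => (1 : ℝ)) | ℱ (m - 1)]

/-- `∏ (1 - 1/q)` over the primes `q ≤ v` not dividing `d` -/
noncomputable def Dn (d v : ℕ) : ℝ :=
  ∏ q ∈ (Finset.Icc 1 v).filter (fun q => q.Prime ∧ ¬ q ∣ d), (1 - (q : ℝ)⁻¹)

/-- `⌊c φ(d) (log d)²⌋` -/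
noncomputable def X (c : ℝ) (d : ℕ) : ℕ := ⌊c * (Nat.totient d : ℝ) * Real.log d ^ 2⌋₊

open Classical in
/-- the rough `m ≡ a (mod d)` in `[y, x]` -/
noncomputable def T (z : ℕ → ℕ) (d a y x : ℕ) : Finset ℕ :=
  (Finset.Icc y x).filter (fun m => m ≡ a [MOD d] ∧ Rough z m)

/-- the sum of `1/q` over the prime factors `q > z(d)` of `d` is at most `κ` -/
def Few (z : ℕ → ℕ) (κ : ℝ) (d : ℕ) : Prop :=
  ∑ q ∈ d.primeFactors.filter (fun q => z d < q), (q : ℝ)⁻¹ ≤ κ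

/-- the conditional probabilities are at least `(1 - κ) W(z(m)) / log m` from `N` on -/
def Lo {Ω : Type} [mΩ : MeasurableSpace Ω] (μ : Measure Ω) (ℱ : Filtration ℕ mΩ)
    (S : ℕ → Set Ω) (z : ℕ → ℕ) (κ : ℝ) (N : ℕ) : Set Ω :=
  {ω | ∀ m, N ≤ m → Rough z m → (1 - κ) * (W (z m) / Real.log m) ≤ cp μ ℱ S m ω}

/-- the conditional probabilities are at most `(1 + κ) W(z(m)) / log m` from `N` on -/
def Up {Ω : Type} [mΩ : MeasurableSpace Ω] (μ : Measure Ω) (ℱ : Filtration ℕ mΩ)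
    (S : ℕ → Set Ω) (z : ℕ → ℕ) (κ : ℝ) (N : ℕ) : Set Ω :=
  {ω | ∀ m, N ≤ m → Rough z m → cp μ ℱ S m ω ≤ (1 + κ) * (W (z m) / Real.log m)}

open Classical in
/-- the weight at time `m` in the second moment argument (`U` is the set of all relevant times) -/
noncomputable def gw {Ω : Type} [mΩ : MeasurableSpace Ω] (μ : Measure Ω) (ℱ : Filtration ℕ mΩ)
    (S : ℕ → Set Ω) (U : Finset ℕ) (p : ℕ → ℝ) (m : ℕ) (ω : Ω) : ℝ :=
  if (∀ k ∈ U, k ≤ m → cp μ ℱ S k ω ≤ p k) then (if ω ∈ S m then 0 else (1 - cp μ ℱ S m ω)⁻¹) else 1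

end Pool.Agent.J6H40.WG2
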