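import Pool.Agent.J6H40.WG2.Stm

/-!
# WG, part 4
-/

set_option autoImplicit false
set_option maxHeartbeats 4000000

open MeasureTheory Filter
open scoped Topology

namespace Pool.Agent.J6H40.WG2

open Classical in
theorem t_P4 (h1 : s_UPD) (h2 : s_GE) : s_P4 := by
  intro z hz Ω mΩ μ _ ℱ S hM c hc
  have hc0 : 0 < c := by linarith
  obtain ⟨κ, hκ0, hκ2, hκ⟩ : ∃ κ : ℝ, 0 < κ ∧ κ < 1 / 2 ∧ 1 < (1 - κ) * (1 - 2 * κ) * c := by
    have hk : 0 < (c - 1) / (6 * c) := by
      apply div_pos <;> linarith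
    refine ⟨(c - 1) / (6 * c), hk, ?_, ?_⟩
    · rw [div_lt_iff₀ (by linarith)]; linarith
    · have e : ((c - 1) / (6 * c)) * c = (c - 1) / 6 := by field_simp
      generalize (c - 1) / (6 * c) = k at hk e
      have e2 : (1 - k) * (1 - 2 * k) * c = c - 3 * (k * c) + 2 * k * (k * c) := by ring
      rw [e2, e]
      have : 0 ≤ 2 * k * ((c - 1) / 6) := by
        have : 0 ≤ (c - 1) / 6 := by linarith
        positivity
      linarith
  set e := (1 - κ) * (1 - 2 * κ) * c with he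
  obtain ⟨D, hD⟩ := eventually_atTop.1 (h1 z hz Ω μ ℱ S hM.adapted c κ hc0 hκ0 hκ2)
  have hFew : ∀ d : ℕ, d.Prime → 1 / κ ≤ d → Few z κ d := by
    intro d hd hk
    unfold Few
    rw [Nat.Prime.primeFactors hd]
    have hd0 : (0 : ℝ) < d := by exact_mod_cast hd.pos
    calc ∑ q ∈ ({d} : Finset ℕ).filter (fun q => z d < q), (q : ℝ)⁻¹
        ≤ ∑ q ∈ ({d} : Finset ℕ), (q : ℝ)⁻¹ :=
          Finset.sum_le_sum_of_subset_of_nonneg (Finset.filter_subset _ _)
            (fun i _ _ => by positivity)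
      _ = (d : ℝ)⁻¹ := by simp
      _ ≤ κ := by
          rw [inv_le_comm₀ hd0 hκ0, ← one_div]
          exact hk
  have key : ∀ d0 N : ℕ, μ {ω | (∀ d : ℕ, d0 ≤ d → d.Prime → ∃ a : ℕ, a < d ∧ Nat.Coprime a d ∧
      ∀ m ∈ T z d a d (X c d), ω ∉ S m) ∧ ω ∈ Lo μ ℱ S z κ N} = 0 := by
    intro d0 N
    set F : Set Ω := {ω | (∀ d : ℕ, d0 ≤ d → d.Prime → ∃ a : ℕ, a < d ∧ Nat.Coprime a d ∧
      ∀ m ∈ T z d a d (X c d), ω ∉ S m) ∧ ω ∈ Lo μ ℱ S z κ N} with hF
    have hle : ∀ d : ℕ, d.Prime → d0 ≤ d → N ≤ d → D ≤ d → 1 / κ ≤ d →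
        μ.real F ≤ (d : ℝ) ^ (1 - e) := by
      intro d hd hd0 hN hDd hk
      have hdpos : (0 : ℝ) < d := by exact_mod_cast hd.pos
      have hsub : F ⊆ ⋃ a ∈ (Finset.range d).filter (fun a => Nat.Coprime a d),
          {ω | (∀ m ∈ T z d a d (X c d), ω ∉ S m) ∧ ω ∈ Lo μ ℱ S z κ N} := by
        intro ω hω
        obtain ⟨a, ha, hcop, hm⟩ := hω.1 d hd0 hd
        refine Set.mem_biUnion (x := a) ?_ ⟨hm, hω.2⟩
        simp only [Finset.coe_filter, Finset.mem_range, Set.mem_setOf_eq]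
        exact ⟨ha, hcop⟩
      calc μ.real F ≤ μ.real (⋃ a ∈ (Finset.range d).filter (fun a => Nat.Coprime a d),
            {ω | (∀ m ∈ T z d a d (X c d), ω ∉ S m) ∧ ω ∈ Lo μ ℱ S z κ N}) :=
            measureReal_mono hsub (measure_ne_top _ _)
        _ ≤ ∑ a ∈ (Finset.range d).filter (fun a => Nat.Coprime a d),
            μ.real {ω | (∀ m ∈ T z d a d (X c d), ω ∉ S m) ∧ ω ∈ Lo μ ℱ S z κ N} :=
            measureReal_biUnion_finset_le _ _
        _ ≤ ∑ a ∈ (Finset.range d).filter (fun a => Nat.Coprime a d), (d : ℝ) ^ (-e) := by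
            refine Finset.sum_le_sum fun a ha => ?_
            rw [Finset.mem_filter, Finset.mem_range] at ha
            exact hD d hDd (hFew d hd hk) a ha.1 ha.2 N hN
        _ ≤ (d : ℝ) * (d : ℝ) ^ (-e) := by
            rw [Finset.sum_const, nsmul_eq_mul]
            refine mul_le_mul_of_nonneg_right ?_ (Real.rpow_nonneg hdpos.le _)
            have : ((Finset.range d).filter (fun a => Nat.Coprime a d)).card ≤ d :=
              (Finset.card_filter_le _ _).trans (Finset.card_range d).le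
            exact_mod_cast this
        _ = (d : ℝ) ^ (1 - e) := by
            rw [sub_eq_add_neg, Real.rpow_add hdpos, Real.rpow_one]
    have hto : Tendsto (fun d : ℕ => (d : ℝ) ^ (1 - e)) atTop (𝓝 0) := by
      have h3 := (tendsto_rpow_neg_atTop (show 0 < e - 1 by linarith)).comp
        (tendsto_natCast_atTop_atTop (R := ℝ))
      refine h3.congr fun d => ?_
      simp only [Function.comp, neg_sub]
    have hreal : μ.real F = 0 := by
      refine le_antisymm (le_of_forall_pos_le_add ?_) measureReal_nonneg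
      intro ε hε
      obtain ⟨M, hMM⟩ := eventually_atTop.1 (hto.eventually (gt_mem_nhds hε))
      obtain ⟨d, hd1, hd⟩ := Nat.exists_infinite_primes (d0 + N + D + M + ⌈1 / κ⌉₊)
      have h4 : 1 / κ ≤ d := (Nat.le_ceil _).trans (by exact_mod_cast (by omega))
      have h5 := hle d hd (by omega) (by omega) (by omega) h4
      have h6 := hMM d (by omega)
      linarith
    exact (measureReal_eq_zero_iff).1 hreal
  have hae : ∀ᵐ ω ∂μ, ∀ d0 N : ℕ, ω ∉ {ω | (∀ d : ℕ, d0 ≤ d → d.Prime → ∃ a : ℕ, a < d ∧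
      Nat.Coprime a d ∧ ∀ m ∈ T z d a d (X c d), ω ∉ S m) ∧ ω ∈ Lo μ ℱ S z κ N} :=
    ae_all_iff.2 fun d0 => ae_all_iff.2 fun N => measure_eq_zero_iff_ae_notMem.1 (key d0 N)
  filter_upwards [hae, h2 Ω μ ℱ S z hM κ hκ0] with ω hω hGE d0
  obtain ⟨N, hLo, _⟩ := hGE
  by_contra hcon
  apply hω d0 N
  refine ⟨fun d hd0 hd => ?_, hLo⟩
  by_contra hno
  apply hcon
  refine ⟨d, hd0, hd, fun a had hcop => ?_⟩
  by_contra hno2
  apply hno
  refine ⟨a, had, hcop, fun m hm hmS => hno2 ⟨m, ?_, ?_, hmS⟩⟩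
  · unfold T at hm
    exact (Finset.mem_filter.1 hm).2.1
  · unfold T at hm
    have h7 := (Finset.mem_Icc.1 (Finset.mem_filter.1 hm).1).2
    unfold X at h7
    have h8 : 0 ≤ c * (Nat.totient d : ℝ) * Real.log d ^ 2 := by positivity
    exact (Nat.le_floor_iff h8).1 h7

end Pool.Agent.J6H40.WG2
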