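import Pool.Agent.J6H40.WG2.Stm

/-!
# Module SU: upper bound for the density sum
-/

set_option autoImplicit false

open MeasureTheory Filter
open scoped Topology

namespace Pool.Agent.J6H40.WG2

theorem SU_sum (hW : ∀ v : ℕ, 0 ≤ W v) (z : ℕ → ℕ) (d a x : ℕ) (ha : a < d) (hda : d ≤ 2 * a)
    (hd : 3 ≤ d) (R : ℕ → ℝ) (hR : ∀ j, Rough z (a + j * d) → R j = W (z (a + j * d)))
    (hR0 : ∀ j, ¬ Rough z (a + j * d) → R j = 0) :
    ∑ m ∈ T z d a 1 x, W (z m) / Real.log m ≤
      (Real.log ((d : ℝ) / 2))⁻¹ * ∑ j ∈ Finset.Ico 0 (x / d + 1), R j := by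
  classical
  have hd' : (3 : ℝ) ≤ d := by exact_mod_cast hd
  have hlog : 0 < Real.log ((d : ℝ) / 2) := Real.log_pos (by linarith)
  have hsub : T z d a 1 x ⊆
      ((Finset.Ico 0 (x / d + 1)).filter (fun j => Rough z (a + j * d))).image
        (fun j => a + j * d) := by
    intro m hm
    unfold T at hm
    rw [Finset.mem_filter, Finset.mem_Icc] at hm
    obtain ⟨⟨_, hx⟩, hmod, hr⟩ := hm
    have h1 : m % d = a := by
      have h2 : m % d = a % d := hmod
      rw [h2, Nat.mod_eq_of_lt ha]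
    have h3 : a + m / d * d = m := by
      have h4 := Nat.mod_add_div m d
      rw [h1, Nat.mul_comm] at h4
      exact h4
    rw [Finset.mem_image]
    refine ⟨m / d, ?_, h3⟩
    rw [Finset.mem_filter, Finset.mem_Ico]
    refine ⟨⟨Nat.zero_le _, Nat.lt_succ_of_le (Nat.div_le_div_right hx)⟩, ?_⟩
    rw [h3]
    exact hr
  have hge : ∀ m ∈ T z d a 1 x, (d : ℝ) / 2 ≤ m := by
    intro m hm
    have h1 := hsub hm
    rw [Finset.mem_image] at h1
    obtain ⟨j, _, rfl⟩ := h1
    have h2 : d ≤ 2 * (a + j * d) := by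
      have : 0 ≤ j * d := Nat.zero_le _
      omega
    have h3 : (d : ℝ) ≤ 2 * ((a + j * d : ℕ) : ℝ) := by exact_mod_cast h2
    linarith
  calc ∑ m ∈ T z d a 1 x, W (z m) / Real.log m
      ≤ ∑ m ∈ T z d a 1 x, (Real.log ((d : ℝ) / 2))⁻¹ * W (z m) := by
        refine Finset.sum_le_sum fun m hm => ?_
        have h1 := hge m hm
        have h2 : Real.log ((d : ℝ) / 2) ≤ Real.log m := Real.log_le_log (by linarith) h1
        rw [div_eq_mul_inv, mul_comm]
        exact mul_le_mul_of_nonneg_right (inv_anti₀ hlog h2) (hW _)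
    _ ≤ ∑ m ∈ ((Finset.Ico 0 (x / d + 1)).filter (fun j => Rough z (a + j * d))).image
          (fun j => a + j * d), (Real.log ((d : ℝ) / 2))⁻¹ * W (z m) := by
        refine Finset.sum_le_sum_of_subset_of_nonneg hsub fun m _ _ => ?_
        exact mul_nonneg (inv_nonneg.2 hlog.le) (hW _)
    _ = ∑ j ∈ (Finset.Ico 0 (x / d + 1)).filter (fun j => Rough z (a + j * d)),
          (Real.log ((d : ℝ) / 2))⁻¹ * W (z (a + j * d)) := by
        refine Finset.sum_image fun i _ j _ h => ?_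
        have h1 : i * d = j * d := Nat.add_left_cancel h
        exact Nat.eq_of_mul_eq_mul_right (by omega) h1
    _ = ∑ j ∈ (Finset.Ico 0 (x / d + 1)).filter (fun j => Rough z (a + j * d)),
          (Real.log ((d : ℝ) / 2))⁻¹ * R j := by
        refine Finset.sum_congr rfl fun j hj => ?_
        rw [hR j (Finset.mem_filter.1 hj).2]
    _ = ∑ j ∈ Finset.Ico 0 (x / d + 1), (Real.log ((d : ℝ) / 2))⁻¹ * R j := by
        refine Finset.sum_filter_of_ne fun j _ hne => ?_
        by_contra hc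
        exact hne (by rw [hR0 j hc, mul_zero])
    _ = _ := by rw [Finset.mul_sum]

theorem t_SU (h1 : s_BLK) (h2 : s_AS) (h3 : s_WB) (h4 : s_WD) : s_SU := by
  intro z hz c η hc hη
  have hW : ∀ v : ℕ, 0 ≤ W v := fun v => le_trans zero_le_one (h3.1 v).1
  obtain ⟨ε, hε⟩ : ∃ ε : ℝ, ε = min (η / 2) 1 := ⟨_, rfl⟩
  have hε0 : 0 < ε := by
    rw [hε]
    exact lt_min (by linarith) one_pos
  have hε1 : ε ≤ 1 := by
    rw [hε]
    exact min_le_right _ _
  have hε2 : ε ≤ η / 2 := by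
    rw [hε]
    exact min_le_left _ _
  obtain ⟨s, hs⟩ := h1 ε hε0
  have hAS := h2 z hz c hc s
  have hE : ∀ᶠ d : ℕ in atTop, ((z (X c d + d) : ℝ) + 2) ^ s / Real.log d < 1 :=
    hAS.eventually (gt_mem_nhds one_pos)
  have hlt : Tendsto (fun d : ℕ => Real.log (d : ℝ)) atTop atTop :=
    Real.tendsto_log_atTop.comp tendsto_natCast_atTop_atTop
  have hl2 : 0 < Real.log 2 := Real.log_pos one_lt_two
  set K : ℝ := 2 * (1 / Real.log 2 + 1) + 1 + (1 + η) * c * Real.log 2 with hK
  have hM := hlt.eventually (eventually_ge_atTop (max 1 (K / (η / 2 * c))))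
  filter_upwards [hE, hM, eventually_ge_atTop 3] with d e1 e2 hd3 a ha hda hcop
  classical
  set L : ℝ := Real.log (d : ℝ) with hL
  have hL1 : 1 ≤ L := le_trans (le_max_left _ _) e2
  have hLK : K / (η / 2 * c) ≤ L := le_trans (le_max_right _ _) e2
  have hηc : 0 < η / 2 * c := by positivity
  have hLK' : K ≤ η / 2 * c * L := by
    rw [div_le_iff₀ hηc] at hLK
    linarith
  have hd' : (3 : ℝ) ≤ d := by exact_mod_cast hd3
  have hdpos : (0 : ℝ) < d := by linarith
  have hlogd2 : Real.log ((d : ℝ) / 2) = L - Real.log 2 := by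
    rw [Real.log_div (by linarith) (by norm_num)]
  have hlog : 0 < Real.log ((d : ℝ) / 2) := Real.log_pos (by linarith)
  set x := X c d with hx
  set R : ℕ → ℝ := fun j => if Rough z (a + j * d) then W (z (a + j * d)) else 0 with hR
  have hR1 : ∀ j, Rough z (a + j * d) → R j = W (z (a + j * d)) := fun j h => by
    simp only [hR]; rw [if_pos h]
  have hR0 : ∀ j, ¬ Rough z (a + j * d) → R j = 0 := fun j h => by
    simp only [hR]; rw [if_neg h]
  have hsum := SU_sum hW z d a x ha hda hd3 R hR1 hR0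
  have hVj : ∀ j, j < x / d + 1 → z (a + j * d) ≤ z (x + d) := by
    intro j hj
    refine hz.1 ?_
    have h5 : j * d ≤ x / d * d := Nat.mul_le_mul_right d (Nat.lt_succ_iff.1 hj)
    have h6 : x / d * d ≤ x := Nat.div_mul_le_self x d
    omega
  have hblk := hs z hz.1 d a (z (x + d)) 0 (x / d + 1) (by omega) hcop (Nat.zero_le _) hVj R hR1 hR0
  set E : ℝ := ((z (x + d) : ℝ) + 2) ^ s with hEdef
  have hEL : E ≤ L := by
    rw [div_lt_one (by linarith)] at e1
    exact e1.le
  have hphi : 0 < (Nat.totient d : ℝ) := by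
    exact_mod_cast Nat.totient_pos.2 (by omega)
  have hS2 : ∑ j ∈ Finset.Ico 0 (x / d + 1), W (z (a + j * d)) * Dn d (z (a + j * d)) ≤
      ((x / d + 1 : ℕ) : ℝ) * ((d : ℝ) / (Nat.totient d : ℝ)) := by
    calc _ ≤ ∑ j ∈ Finset.Ico 0 (x / d + 1), ((d : ℝ) / (Nat.totient d : ℝ)) :=
          Finset.sum_le_sum fun j _ => (h4 d (z (a + j * d)) (by omega)).1
      _ = _ := by rw [Finset.sum_const, Nat.card_Ico, nsmul_eq_mul, Nat.sub_zero]
  have hx1 : (x : ℝ) ≤ c * (Nat.totient d : ℝ) * L ^ 2 := by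
    rw [hx]; unfold X
    exact Nat.floor_le (by positivity)
  have hxd : ((x / d + 1 : ℕ) : ℝ) * d ≤ x + d := by
    have h5 : (x / d + 1) * d ≤ x + d := by
      have := Nat.div_mul_le_self x d
      rw [Nat.add_mul, one_mul]
      omega
    exact_mod_cast h5
  have hS3 : ((x / d + 1 : ℕ) : ℝ) * ((d : ℝ) / (Nat.totient d : ℝ)) ≤
      c * L ^ 2 + (d : ℝ) / (Nat.totient d : ℝ) := by
    rw [← mul_div_assoc, div_le_iff₀ hphi, add_mul, div_mul_cancel₀ _ hphi.ne']
    nlinarith [hx1, hxd]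
  have hS4 := h3.2 d (by omega)
  have hS5 : ∑ j ∈ Finset.Ico 0 (x / d + 1), R j ≤
      (1 + ε) * (c * L ^ 2 + (L / Real.log 2 + 1)) + L := by
    have h5 := (abs_le.1 hblk).2
    have h6 : ∑ j ∈ Finset.Ico 0 (x / d + 1), W (z (a + j * d)) * Dn d (z (a + j * d)) ≤
        c * L ^ 2 + (L / Real.log 2 + 1) := by
      linarith
    have h7 := mul_le_mul_of_nonneg_left h6 (show (0 : ℝ) ≤ 1 + ε by linarith)
    linarith
  refine hsum.trans ?_
  have hS6 : ∑ j ∈ Finset.Ico 0 (x / d + 1), R j ≤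
      Real.log ((d : ℝ) / 2) * ((1 + η) * c * L) := by
    refine hS5.trans ?_
    rw [hlogd2]
    have h7 : L / Real.log 2 = 1 / Real.log 2 * L := by ring
    rw [h7]
    have h8 : K * L ≤ η / 2 * c * L * L := mul_le_mul_of_nonneg_right hLK' (by linarith)
    have h9 : K * L = 2 * (1 / Real.log 2 * L + L) + L + (1 + η) * c * Real.log 2 * L := by
      rw [hK]; ring
    have h10 : ε * (c * L ^ 2) ≤ η / 2 * (c * L ^ 2) :=
      mul_le_mul_of_nonneg_right hε2 (by positivity)
    have hl2' : 0 ≤ 1 / Real.log 2 * L := by positivity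
    have h11 : (1 + ε) * (1 / Real.log 2 * L + 1) ≤ 2 * (1 / Real.log 2 * L + L) :=
      mul_le_mul (by linarith) (by linarith) (by linarith) (by norm_num)
    have h12 : (1 + ε) * (c * L ^ 2 + (1 / Real.log 2 * L + 1)) =
        c * L ^ 2 + ε * (c * L ^ 2) + (1 + ε) * (1 / Real.log 2 * L + 1) := by ring
    have h13 : (L - Real.log 2) * ((1 + η) * c * L) =
        c * L ^ 2 + η * (c * L ^ 2) - (1 + η) * c * Real.log 2 * L := by ring
    have h14 : η / 2 * c * L * L = η / 2 * (c * L ^ 2) := by ring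
    rw [h12, h13]
    linarith
  rw [inv_mul_le_iff₀ hlog]
  exact hS6

end Pool.Agent.J6H40.WG2
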